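import Mathlib

/-!
# Euler integrals
-/

set_option autoImplicit false

open Complex Set MeasureTheory Filter Topology intervalIntegral

namespace Pool.Agent.N156.HG

/-- the domain: `1 - z` is not in `(-∞, 0]` -/
def D1 : Set ℂ := {z | 1 - z ∈ slitPlane}

theorem isOpen_D1 : IsOpen D1 := isOpen_slitPlane.preimage (by fun_prop)

theorem mem_seg {z : ℂ} (hz : z ∈ D1) {t : ℝ} (h0 : 0 ≤ t) (h1 : t ≤ 1) : 1 - z * t ∈ slitPlane := by
  have h2 := starConvex_one_slitPlane
  have h3 := h2 hz (sub_nonneg.2 h1) h0 (by ring)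
  have h4 : (1 - t) • (1 : ℂ) + t • (1 - z) = 1 - z * t := by
    simp only [real_smul]
    push_cast
    ring
  rwa [h4] at h3

/-- the integral of `g(t) (1 - z t) ^ a` -/
noncomputable def EI (g : ℝ → ℝ) (a : ℂ) (z : ℂ) : ℂ := ∫ t in (0 : ℝ)..1, (g t : ℂ) * (1 - z * t) ^ a

theorem cont_aux {z : ℂ} (hz : z ∈ D1) (a : ℂ) {t : ℝ} (ht : t ∈ Icc (0 : ℝ) 1) :
    ContinuousAt (fun p : ℂ × ℝ => (1 - p.1 * p.2) ^ a) (z, t) := by
  refine ContinuousAt.cpow ?_ continuousAt_const (mem_seg hz ht.1 ht.2)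
  fun_prop

theorem cont_t {z : ℂ} (hz : z ∈ D1) (a : ℂ) : ContinuousOn (fun t : ℝ => (1 - z * t) ^ a) (Icc 0 1) := by
  intro t ht
  refine ContinuousAt.continuousWithinAt (ContinuousAt.cpow ?_ continuousAt_const (mem_seg hz ht.1 ht.2))
  fun_prop

theorem int_aux {g : ℝ → ℝ} (hg : IntervalIntegrable g volume 0 1) {z : ℂ} (hz : z ∈ D1) (a : ℂ) :
    IntervalIntegrable (fun t : ℝ => (g t : ℂ) * (1 - z * t) ^ a) volume 0 1 := by
  have h1 : IntervalIntegrable (fun t : ℝ => (g t : ℂ)) volume 0 1 := ⟨hg.1.ofReal, hg.2.ofReal⟩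
  refine h1.mul_continuousOn ?_
  rw [uIcc_of_le zero_le_one]
  exact cont_t hz a

theorem EI_deriv {g : ℝ → ℝ} (hg : IntervalIntegrable g volume 0 1) {z : ℂ} (hz : z ∈ D1) (a : ℂ) :
    HasDerivAt (EI g a) (-a * EI (fun t => t * g t) (a - 1) z) z := by
  obtain ⟨r, hr, hball⟩ := Metric.nhds_basis_closedBall.mem_iff.1 (isOpen_D1.mem_nhds hz)
  have hK : IsCompact (Metric.closedBall z r ×ˢ Icc (0 : ℝ) 1) := (isCompact_closedBall z r).prod isCompact_Icc
  obtain ⟨M, hM⟩ := hK.exists_bound_of_continuousOn (f := fun p : ℂ × ℝ => (1 - p.1 * p.2) ^ (a - 1))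
    (fun p hp => (cont_aux (hball hp.1) (a - 1) hp.2).continuousWithinAt)
  have h2 := intervalIntegral.hasDerivAt_integral_of_dominated_loc_of_deriv_le (μ := volume) (a := (0 : ℝ)) (b := 1)
    (F := fun z (t : ℝ) => (g t : ℂ) * (1 - z * t) ^ a)
    (F' := fun z (t : ℝ) => (g t : ℂ) * (a * (1 - z * t) ^ (a - 1) * (-t))) (x₀ := z) (s := Metric.ball z r)
    (bound := fun t => |g t| * (‖a‖ * M)) (Metric.ball_mem_nhds z hr) ?_ (int_aux hg hz a) ?_ ?_ ?_ ?_
  · have h3 := h2.2
    have h4 : (∫ t in (0 : ℝ)..1, (g t : ℂ) * (a * (1 - z * t) ^ (a - 1) * (-t))) =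
        -a * EI (fun t => t * g t) (a - 1) z := by
      unfold EI
      rw [← intervalIntegral.integral_const_mul]
      refine intervalIntegral.integral_congr fun t _ => ?_
      simp only
      push_cast
      ring
    rw [h4] at h3
    exact h3
  · filter_upwards [isOpen_D1.mem_nhds hz] with w hw
    exact (int_aux hg hw a).aestronglyMeasurable_restrict_uIoc
  · have h5 : IntervalIntegrable (fun t : ℝ => (g t : ℂ) * (a * (1 - z * t) ^ (a - 1) * (-t))) volume 0 1 := by
      have h1 : IntervalIntegrable (fun t : ℝ => (g t : ℂ)) volume 0 1 := ⟨hg.1.ofReal, hg.2.ofReal⟩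
      refine h1.mul_continuousOn ?_
      rw [uIcc_of_le zero_le_one]
      exact (continuousOn_const.mul (cont_t hz (a - 1))).mul (by fun_prop)
    exact h5.aestronglyMeasurable_restrict_uIoc
  · refine Eventually.of_forall fun t ht w hw => ?_
    rw [uIoc_of_le zero_le_one] at ht
    rw [norm_mul, norm_mul, norm_mul, norm_neg, norm_real, norm_real, Real.norm_eq_abs, Real.norm_eq_abs]
    have h6 := hM (w, t) ⟨Metric.ball_subset_closedBall hw, ht.1.le, ht.2⟩
    simp only at h6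
    have h7 : |t| ≤ 1 := by rw [abs_of_pos ht.1]; exact ht.2
    refine mul_le_mul_of_nonneg_left ?_ (abs_nonneg _)
    have hM0 : 0 ≤ M := (norm_nonneg _).trans h6
    calc ‖a‖ * ‖(1 - w * (t : ℂ)) ^ (a - 1)‖ * |t| ≤ ‖a‖ * M * 1 := by
          refine mul_le_mul (mul_le_mul_of_nonneg_left h6 (norm_nonneg _)) h7 (abs_nonneg _) (by positivity)
      _ = _ := mul_one _
  · exact hg.abs.mul_const _
  · refine Eventually.of_forall fun t ht w hw => ?_
    rw [uIoc_of_le zero_le_one] at ht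
    have h8 : HasDerivAt (fun w : ℂ => (1 - w * t)) (-t : ℂ) w := by
      have := ((hasDerivAt_id w).mul_const (t : ℂ)).const_sub 1
      simpa using this
    have h9 := h8.cpow_const (c := a) (mem_seg (hball (Metric.ball_subset_closedBall hw)) ht.1.le ht.2)
    exact h9.const_mul _

theorem EI_diff {g : ℝ → ℝ} (hg : IntervalIntegrable g volume 0 1) (a : ℂ) : DifferentiableOn ℂ (EI g a) D1 :=
  fun _ hz => (EI_deriv hg hz a).differentiableAt.differentiableWithinAt

end Pool.Agent.N156.HG
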