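import Pool.Agent.N156.HG.Grp
import Pool.Agent.Y890.SM.Inst

/-!
# Tuples of hypergeometric functions at several points
-/

set_option autoImplicit false
set_option linter.unusedSectionVars false

open Complex Set Filter Topology Matrix

namespace Pool.Agent.N156.HG

open Pool.Agent.Y118.HP (jm SpS SpS_one)
open Pool.Agent.N156.HC (MJ IJ evJ sbJ evJ_sb tuple_mem)
open Pool.Agent.Y890.MV (evX evM evM_an)
open Pool.Agent.Y890.SM (Ix)

/-- the squares of the coefficients are distinct -/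
theorem cc_inj {a b : ℝ} (ha0 : 0 < a) (ha : a ≤ 1 / 2) (hb0 : 0 < b) (hb : b ≤ 1 / 2)
    (h : (cc a : ℂ) ^ 2 = (cc b : ℂ) ^ 2) : a = b := by
  have h1 : (cc a) ^ 2 = (cc b) ^ 2 := by exact_mod_cast h
  have hka := kap_pos ha0 (by linarith)
  have hkb := kap_pos hb0 (by linarith)
  have h2 : cc a = cc b := by
    have e1 : 0 < cc a := inv_pos.2 hka
    have e2 : 0 < cc b := inv_pos.2 hkb
    nlinarith [sq_nonneg (cc a - cc b)]
  have h3 : kap a = kap b := inv_injective h2
  unfold kap at h3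
  have hs : Real.sin (Real.pi * a) = Real.sin (Real.pi * b) := by
    have h4 : ∀ {x : ℝ}, 0 < x → x ≤ 1 / 2 → Real.sin (Real.pi * x) ≠ 0 := by
      intro x hx hx'
      refine (Real.sin_pos_of_pos_of_lt_pi (by positivity) ?_).ne'
      nlinarith [Real.pi_pos]
    have e1 := h4 ha0 ha
    have e2 := h4 hb0 hb
    rw [div_eq_div_iff e1 e2] at h3
    exact (mul_left_cancel₀ Real.pi_ne_zero h3).symm
  have hm : ∀ {x : ℝ}, 0 < x → x ≤ 1 / 2 → Real.pi * x ∈ Set.Icc (-(Real.pi / 2)) (Real.pi / 2) := by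
    intro x hx hx'
    constructor
    · have := Real.pi_pos
      have : 0 < Real.pi * x := by positivity
      linarith
    · nlinarith [Real.pi_pos]
  have h5 := Real.injOn_sin (hm ha0 ha) (hm hb0 hb) hs
  exact mul_left_cancel₀ Real.pi_ne_zero h5

/-- **One point:** all tuples of symplectic matrices preserve the relations. -/
theorem one_point {κ : Type} [Fintype κ] [DecidableEq κ] {m : κ → ℝ} (h0 : ∀ j, 0 < m j) (h1 : ∀ j, m j ≤ 1 / 2)
    (hm : Function.Injective m) (g : MJ (n2 κ)) (hg : ∀ j, g j ∈ SpS ℂ 2) : g ∈ MonG DD (PJ m) := by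
  have h1' : ∀ j, m j < 1 := fun j => by linarith [h1 j]
  refine sp_tuple (c := fun j => (cc (m j) : ℂ)) (fun j => ?_) (fun j j' h => ?_) _ (fun k s => ?_) ?_ g hg
  · have := inv_pos.2 (kap_pos (h0 j) (h1' j))
    exact_mod_cast this.ne'
  · exact hm (cc_inj (h0 j) (h1 j) (h0 j') (h1 j') h)
  · fin_cases k
    · exact TH0_mem h0 h1' s
    · exact TH1_mem h0 h1' s
  · intro M S hS h s
    exact poly_familyG M hS h s

section several

variable {N : ℕ} {κ : Type}

/-- the period matrices at several points -/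
noncomputable def PF (m : κ → ℝ) (x : Fin (N + 1) → ℂ) : MJ (n2 (Fin (N + 1) × κ)) := fun q => PH (m q.2) (x q.1)

/-- the domain -/
def UU (N : ℕ) : Set (Fin (N + 1) → ℂ) := Set.univ.pi fun _ => DD

theorem mem_UU {x : Fin (N + 1) → ℂ} : x ∈ UU N ↔ ∀ i, x i ∈ DD := by simp [UU]

theorem UU_open : IsOpen (UU N) := isOpen_set_pi Set.finite_univ fun _ _ => isOpen_DD

theorem UU_conn : IsPreconnected (UU N) := isPreconnected_univ_pi fun _ => conn_DD

theorem UU_nonempty : (UU N).Nonempty :=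
  ⟨fun _ => ((1 / 2 : ℝ) : ℂ), mem_UU.2 fun _ => real_mem_DD (by norm_num) (by norm_num)⟩

theorem PF_an {m : κ → ℝ} (h0 : ∀ j, 0 < m j) (h1 : ∀ j, m j < 1) (q : Fin (N + 1) × κ) (a b : Fin 2) :
    AnalyticOnNhd ℂ (fun x => PF m x q a b) (UU N) := by
  intro x hx
  have h2 : AnalyticAt ℂ (fun x : Fin (N + 1) → ℂ => x q.1) x :=
    (ContinuousLinearMap.proj (R := ℂ) (φ := fun _ : Fin (N + 1) => ℂ) q.1).analyticAt x
  exact AnalyticAt.comp (g := fun z => PH (m q.2) z a b) (f := fun x : Fin (N + 1) → ℂ => x q.1)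
    (((PH_diff (h0 q.2) (h1 q.2) a b).analyticOnNhd isOpen_DD) _ (mem_UU.1 hx q.1)) h2

section spe

variable (m : κ → ℝ) (i : Fin (N + 1))

/-- the tuple with the matrices at the point `i` replaced -/
noncomputable def gl (x : Fin (N + 1) → ℂ) (Y : MJ (n2 κ)) : MJ (n2 (Fin (N + 1) × κ)) := fun q =>
  if q.1 = i then Y q.2 else PH (m q.2) (x q.1)

/-- substitution of constants for all points but `i` -/
noncomputable def spe (x : Fin (N + 1) → ℂ) : MvPolynomial (Ix (n2 (Fin (N + 1) × κ))) (MvPolynomial (Fin (N + 1)) ℂ) →+*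
    MvPolynomial (Option (IJ (n2 κ))) ℂ :=
  MvPolynomial.eval₂Hom (MvPolynomial.eval₂Hom MvPolynomial.C
    (Function.update (fun i => MvPolynomial.C (x i)) i (MvPolynomial.X none)))
    (fun q => if q.1.1 = i then MvPolynomial.X (some ⟨q.1.2, q.2⟩) else
      MvPolynomial.C (PH (m q.1.2) (x q.1.1) q.2.1 q.2.2))

theorem spe_ev (x : Fin (N + 1) → ℂ) (z : ℂ) (Y : MJ (n2 κ))
    (p : MvPolynomial (Ix (n2 (Fin (N + 1) × κ))) (MvPolynomial (Fin (N + 1)) ℂ)) :
    evJ (spe m i x p) z Y = evX (Function.update x i z) (fun q => gl m i x Y q.1 q.2.1 q.2.2) p := by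
  have h1 : (MvPolynomial.eval (fun o : Option (IJ (n2 κ)) =>
      o.elim z fun q => Y q.1 q.2.1 q.2.2)).comp (spe m i x) =
      MvPolynomial.eval₂Hom (MvPolynomial.eval (Function.update x i z))
        (fun q => gl m i x Y q.1 q.2.1 q.2.2) := by
    refine MvPolynomial.ringHom_ext (fun b => ?_) (fun q => ?_)
    · have h2 : ((MvPolynomial.eval (fun o : Option (IJ (n2 κ)) =>
          o.elim z fun q => Y q.1 q.2.1 q.2.2)).comp (spe m i x)).comp MvPolynomial.C =
          MvPolynomial.eval (Function.update x i z) := by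
        refine MvPolynomial.ringHom_ext (fun c => ?_) (fun k => ?_)
        · simp [spe]
        · by_cases hi : k = i
          · subst hi
            simp [spe]
          · simp [spe, Function.update_of_ne hi]
      have h3 := congrArg (fun g => g b) h2
      simp only [RingHom.comp_apply] at h3
      rw [RingHom.comp_apply, h3]
      exact (MvPolynomial.eval₂Hom_C _ _ _).symm
    · obtain ⟨j, q⟩ := q
      by_cases h : j.1 = i
      · simp [spe, gl, h]
      · simp [spe, gl, h]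
  exact congrArg (fun g => g p) h1

end spe

section inv

variable [Fintype κ] [DecidableEq κ] {m : κ → ℝ}

theorem inv_single (h0 : ∀ j, 0 < m j) (h1 : ∀ j, m j ≤ 1 / 2) (hm : Function.Injective m)
    (p : MvPolynomial (Ix (n2 (Fin (N + 1) × κ))) (MvPolynomial (Fin (N + 1)) ℂ))
    (hp : ∀ x ∈ UU N, evX x (fun q => PF m x q.1 q.2.1 q.2.2) p = 0)
    (j : Fin (N + 1) × κ) (g : Matrix (Fin 2) (Fin 2) ℂ) (hg : g ∈ SpS ℂ 2) :
    ∀ x ∈ UU N, evX x (fun q => ((Pi.mulSingle j g : MJ (n2 (Fin (N + 1) × κ))) * PF m x) q.1 q.2.1 q.2.2) p = 0 := by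
  intro x hx
  have hId : spe m j.1 x p ∈ IdG DD (PJ m) := by
    intro z hz
    rw [spe_ev]
    have h2 : Function.update x j.1 z ∈ UU N := by
      rw [mem_UU]
      intro k
      by_cases hk : k = j.1
      · subst hk
        rw [Function.update_self]
        exact hz
      · rw [Function.update_of_ne hk]
        exact mem_UU.1 hx k
    have h3 : gl m j.1 x (PJ m z) = PF m (Function.update x j.1 z) := by
      funext q
      unfold gl PF PJ
      by_cases h : q.1 = j.1
      · rw [if_pos h, h, Function.update_self]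
      · rw [if_neg h, Function.update_of_ne h]
    rw [h3]
    exact hp _ h2
  have hS : (Pi.mulSingle j.2 g : MJ (n2 κ)) ∈ MonG DD (PJ m) := by
    refine one_point h0 h1 hm _ fun k => ?_
    by_cases hk : k = j.2
    · subst hk
      rw [Pi.mulSingle_eq_same]
      exact hg
    · rw [Pi.mulSingle_eq_of_ne hk]
      exact SpS_one
  have key := mem_MonG.1 hS _ hId (x j.1) (mem_UU.1 hx j.1)
  rw [spe_ev, Function.update_eq_self] at key
  have h6 : gl m j.1 x ((Pi.mulSingle j.2 g : MJ (n2 κ)) * PJ m (x j.1)) =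
      (Pi.mulSingle j g : MJ (n2 (Fin (N + 1) × κ))) * PF m x := by
    funext q
    rw [Pi.mul_apply]
    unfold gl PF
    by_cases h : q.1 = j.1
    · rw [if_pos h, Pi.mul_apply, h]
      unfold PJ
      congr 1
      by_cases h2 : q.2 = j.2
      · have h3 : q = j := Prod.ext h h2
        subst h3
        rw [Pi.mulSingle_eq_same, Pi.mulSingle_eq_same]
      · rw [Pi.mulSingle_eq_of_ne h2, Pi.mulSingle_eq_of_ne fun h3 => h2 (congrArg Prod.snd h3)]
    · rw [if_neg h, Pi.mulSingle_eq_of_ne (fun h3 => h (congrArg Prod.fst h3)), one_mul]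
  rw [h6] at key
  exact key

/-- substitution `Y ↦ g Y` -/
noncomputable def sbX (g : MJ (n2 (Fin (N + 1) × κ))) (p : MvPolynomial (Ix (n2 (Fin (N + 1) × κ))) (MvPolynomial (Fin (N + 1)) ℂ)) :
    MvPolynomial (Ix (n2 (Fin (N + 1) × κ))) (MvPolynomial (Fin (N + 1)) ℂ) :=
  MvPolynomial.bind₁ (fun q : Ix (n2 (Fin (N + 1) × κ)) => ∑ k, MvPolynomial.C (MvPolynomial.C (g q.1 q.2.1 k)) *
    MvPolynomial.X (⟨q.1, (k, q.2.2)⟩ : Ix (n2 (Fin (N + 1) × κ)))) p

theorem evX_sb (g : MJ (n2 (Fin (N + 1) × κ))) (p : MvPolynomial (Ix (n2 (Fin (N + 1) × κ))) (MvPolynomial (Fin (N + 1)) ℂ))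
    (x : Fin (N + 1) → ℂ) (Y : MJ (n2 (Fin (N + 1) × κ))) :
    evX x (fun q => Y q.1 q.2.1 q.2.2) (sbX g p) = evX x (fun q => (g * Y) q.1 q.2.1 q.2.2) p := by
  have h1 : (MvPolynomial.eval₂Hom (MvPolynomial.eval x) (fun q : Ix (n2 (Fin (N + 1) × κ)) => Y q.1 q.2.1 q.2.2)).comp
      (MvPolynomial.bind₁ (fun q : Ix (n2 (Fin (N + 1) × κ)) => ∑ k, MvPolynomial.C (MvPolynomial.C (g q.1 q.2.1 k)) *
        (MvPolynomial.X (⟨q.1, (k, q.2.2)⟩ : Ix (n2 (Fin (N + 1) × κ))) :
          MvPolynomial (Ix (n2 (Fin (N + 1) × κ))) (MvPolynomial (Fin (N + 1)) ℂ)))).toRingHom =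
      MvPolynomial.eval₂Hom (MvPolynomial.eval x) (fun q : Ix (n2 (Fin (N + 1) × κ)) => (g * Y) q.1 q.2.1 q.2.2) := by
    refine MvPolynomial.ringHom_ext (fun b => ?_) (fun q => ?_)
    · simp
    · simp [Matrix.mul_apply]
  exact congrArg (fun g => g p) h1

/-- the monoid of the tuples which preserve the relations -/
def MonX (m : κ → ℝ) (N : ℕ) : Submonoid (MJ (n2 (Fin (N + 1) × κ))) where
  carrier := {g | ∀ p : MvPolynomial (Ix (n2 (Fin (N + 1) × κ))) (MvPolynomial (Fin (N + 1)) ℂ),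
    (∀ x ∈ UU N, evX x (fun q => PF m x q.1 q.2.1 q.2.2) p = 0) →
    ∀ x ∈ UU N, evX x (fun q => (g * PF m x) q.1 q.2.1 q.2.2) p = 0}
  one_mem' := by
    intro p hp x hx
    rw [one_mul]
    exact hp x hx
  mul_mem' := by
    intro g h hg hh p hp x hx
    have h1 := hh (sbX g p) (fun x hx => by rw [evX_sb]; exact hg p hp x hx) x hx
    rw [evX_sb, ← mul_assoc] at h1
    exact h1

/-- **All tuples of symplectic matrices preserve the relations.** -/
theorem inv_all (h0 : ∀ j, 0 < m j) (h1 : ∀ j, m j ≤ 1 / 2) (hm : Function.Injective m)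
    (g : MJ (n2 (Fin (N + 1) × κ))) (hg : ∀ j, g j ∈ SpS ℂ 2) : g ∈ MonX m N :=
  tuple_mem _ _ fun j p hp x hx => inv_single h0 h1 hm p hp j (g j) (hg j) x hx

end inv

end several

end Pool.Agent.N156.HG
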