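import Pool.Agent.N156.HG.Mono3

/-!
# Simultaneous transvections with different coefficients generate the product of the groups
-/

set_option autoImplicit false

open Complex Set Filter Topology Matrix

namespace Pool.Agent.N156.HG

open Pool.Agent.Y118.HP (jm om TV TV_conj TV_smul om_self om_single jm_mulVec SpS)
open Pool.Agent.N156.HC (MJ IJ TV_add TV_zero tv_four PolyClosed VM sp_memM tuple_mem mulSingle_map)

variable {ι : Type} {c : ι → ℂ}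

theorem TH_mul (k : Fin 2) (s s' : ℂ) : TH c k s * TH c k s' = TH c k (s + s') := by
  funext j
  rw [Pi.mul_apply]
  unfold TH
  rw [TV_add, mul_add]

theorem TH_zero (k : Fin 2) : TH c k 0 = 1 := by
  funext j
  rw [Pi.one_apply]
  unfold TH
  rw [mul_zero, TV_zero]

/-- the simultaneous transvections as units -/
noncomputable def UH (c : ι → ℂ) (k : Fin 2) (s : ℂ) : (MJ (n2 ι))ˣ :=
  ⟨TH c k s, TH c k (-s), by rw [TH_mul, add_neg_cancel, TH_zero], by rw [TH_mul, neg_add_cancel, TH_zero]⟩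

/-- the group generated by the simultaneous transvections -/
noncomputable def GH (c : ι → ℂ) : Subgroup (MJ (n2 ι))ˣ :=
  Subgroup.closure (Set.range fun q : Fin 2 × ℂ => UH c q.1 q.2)

theorem UH_mem (k : Fin 2) (s : ℂ) : UH c k s ∈ GH c := Subgroup.subset_closure ⟨(k, s), rfl⟩

theorem inv2 {u : (MJ (n2 ι))ˣ} {j : ι} {A B : Matrix (Fin 2) (Fin 2) ℂ} (h : (u : MJ (n2 ι)) j = A)
    (hBA : B * A = 1) : ((u⁻¹ : (MJ (n2 ι))ˣ) : MJ (n2 ι)) j = B := by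
  have h1 : (u : MJ (n2 ι)) j * ((u⁻¹ : (MJ (n2 ι))ˣ) : MJ (n2 ι)) j = 1 := by
    rw [← Pi.mul_apply, Units.mul_inv, Pi.one_apply]
  calc ((u⁻¹ : (MJ (n2 ι))ˣ) : MJ (n2 ι)) j = (B * A) * ((u⁻¹ : (MJ (n2 ι))ˣ) : MJ (n2 ι)) j := by rw [hBA, one_mul]
    _ = B * ((u : MJ (n2 ι)) j * ((u⁻¹ : (MJ (n2 ι))ˣ) : MJ (n2 ι)) j) := by rw [h, mul_assoc]
    _ = B := by rw [h1, mul_one]

theorem inv_TV {u : (MJ (n2 ι))ˣ} {j : ι} {v : Fin 2 → ℂ} {s : ℂ} (h : (u : MJ (n2 ι)) j = TV v s) :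
    ((u⁻¹ : (MJ (n2 ι))ˣ) : MJ (n2 ι)) j = TV v (-s) := by
  refine inv2 h ?_
  rw [TV_add, neg_add_cancel, TV_zero]

theorem inv_one {u : (MJ (n2 ι))ˣ} {j : ι} (h : (u : MJ (n2 ι)) j = 1) :
    ((u⁻¹ : (MJ (n2 ι))ˣ) : MJ (n2 ι)) j = 1 := inv2 h (by rw [mul_one])

theorem mul_inv_j (u : (MJ (n2 ι))ˣ) (j : ι) :
    (u : MJ (n2 ι)) j * ((u⁻¹ : (MJ (n2 ι))ˣ) : MJ (n2 ι)) j = 1 := by
  rw [← Pi.mul_apply, Units.mul_inv, Pi.one_apply]

theorem om0 (v : Fin 2 → ℂ) : om (Pi.single 0 1) v = -v 1 := by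
  rw [om_single]
  simp [mulVec, dotProduct, Fin.sum_univ_two, Pool.Agent.Y118.HP.jm]

theorem om1 (v : Fin 2 → ℂ) : om (Pi.single 1 1) v = v 0 := by
  rw [om_single]
  simp [mulVec, dotProduct, Fin.sum_univ_two, Pool.Agent.Y118.HP.jm]

/-- a set of vectors which is stable under enough transvections and contains a nonzero vector -/
theorem all_of_one {A : Set (Fin 2 → ℂ)} (h0 : (0 : Fin 2 → ℂ) ∈ A)
    (hA : ∀ (k : Fin 2) (v : Fin 2 → ℂ), v ∈ A → om (Pi.single k 1) v ≠ 0 → ∀ a : ℂ,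
      v + a • (Pi.single k 1 : Fin 2 → ℂ) ∈ A) {v : Fin 2 → ℂ} (hv : v ∈ A) (hv0 : v ≠ 0) (w : Fin 2 → ℂ) : w ∈ A := by
  have hs0 : ∀ u : Fin 2 → ℂ, u ∈ A → u 0 ≠ 0 → ∀ a : ℂ, (![u 0, a] : Fin 2 → ℂ) ∈ A := by
    intro u hu h a
    have h1 := hA 1 u hu (by rw [om1]; exact h) (a - u 1)
    have h2 : u + (a - u 1) • (Pi.single 1 1 : Fin 2 → ℂ) = ![u 0, a] := by
      funext i
      fin_cases i <;> simp
    rwa [h2] at h1
  have hs1 : ∀ u : Fin 2 → ℂ, u ∈ A → u 1 ≠ 0 → ∀ a : ℂ, (![a, u 1] : Fin 2 → ℂ) ∈ A := by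
    intro u hu h a
    have h1 := hA 0 u hu (by rw [om0]; exact neg_ne_zero.2 h) (a - u 0)
    have h2 : u + (a - u 0) • (Pi.single 0 1 : Fin 2 → ℂ) = ![a, u 1] := by
      funext i
      fin_cases i <;> simp
    rwa [h2] at h1
  -- a vector with nonzero first coordinate
  obtain ⟨u, hu, hu0⟩ : ∃ u ∈ A, u 0 ≠ 0 := by
    by_cases h : v 0 = 0
    · have h1 : v 1 ≠ 0 := by
        intro h2
        apply hv0
        funext i
        fin_cases i
        · exact h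
        · exact h2
      exact ⟨_, hs1 v hv h1 1, by simp⟩
    · exact ⟨v, hv, h⟩
  have hall : ∀ a : ℂ, (![a, 1] : Fin 2 → ℂ) ∈ A := by
    intro a
    have h1 := hs0 u hu hu0 1
    have h2 := hs1 _ h1 (by simp) a
    simpa using h2
  by_cases hw : w 0 = 0
  · by_cases hw1 : w 1 = 0
    · have : w = 0 := by
        funext i
        fin_cases i
        · exact hw
        · exact hw1
      rw [this]
      exact h0
    · have h1 := hs0 _ (hall 1) (by simp) (w 1)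
      have h2 := hs1 _ h1 (by simpa using hw1) (w 0)
      have h3 : (![w 0, w 1] : Fin 2 → ℂ) = w := by
        funext i
        fin_cases i <;> simp
      have h4 : (![w 0, (![(![(1 : ℂ), 1] : Fin 2 → ℂ) 0, w 1] : Fin 2 → ℂ) 1] : Fin 2 → ℂ) = w := by
        rw [← h3]
        simp
      rwa [h4] at h2
  · have h1 := hs0 _ (hall (w 0)) (by simpa using hw) (w 1)
    have h4 : (![(![w 0, (1 : ℂ)] : Fin 2 → ℂ) 0, w 1] : Fin 2 → ℂ) = w := by
      funext i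
      fin_cases i <;> simp
    rwa [h4] at h1

/-- the vectors whose transvections, with the identity in the factors of `A`, are in the group -/
def VA (c : ι → ℂ) (j : ι) (A : Finset ι) : Set (Fin 2 → ℂ) :=
  {v | ∀ s, ∃ u ∈ GH c, (u : MJ (n2 ι)) j = TV v s ∧ ∀ a ∈ A, (u : MJ (n2 ι)) a = 1}

theorem VA_zero (j : ι) (A : Finset ι) : (0 : Fin 2 → ℂ) ∈ VA c j A := by
  intro s
  refine ⟨1, one_mem _, ?_, fun a _ => rfl⟩
  unfold TV
  simp

theorem VA_step {j : ι} {A : Finset ι} (hc : c j ≠ 0) (k : Fin 2) (v : Fin 2 → ℂ) (hv : v ∈ VA c j A)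
    (h : om (Pi.single k 1) v ≠ 0) (a : ℂ) : v + a • (Pi.single k 1 : Fin 2 → ℂ) ∈ VA c j A := by
  intro s
  obtain ⟨u, hu, hu1, hu2⟩ := hv s
  set x := UH c k (a / om (Pi.single k 1) v / c j) with hx
  have hx1 : (x : MJ (n2 ι)) j = TV (Pi.single k 1) (a / om (Pi.single k 1) v) := by
    show TV (Pi.single k 1) (c j * (a / om (Pi.single k 1) v / c j)) = _
    rw [mul_div_cancel₀ _ hc]
  refine ⟨x * u * x⁻¹, mul_mem (mul_mem (UH_mem _ _) hu) (inv_mem (UH_mem _ _)), ?_, fun b hb => ?_⟩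
  · rw [Units.val_mul, Units.val_mul, Pi.mul_apply, Pi.mul_apply, hx1, hu1, inv_TV hx1, TV_conj, div_mul_cancel₀ _ h]
  · rw [Units.val_mul, Units.val_mul, Pi.mul_apply, Pi.mul_apply, hu2 b hb, mul_one, mul_inv_j]

theorem VA_empty {j : ι} (hc : c j ≠ 0) (v : Fin 2 → ℂ) : v ∈ VA c j ∅ := by
  refine all_of_one (VA_zero j ∅) (VA_step hc) (v := Pi.single 0 1) (fun s => ?_) (by simp) v
  refine ⟨UH c 0 (s / c j), UH_mem _ _, ?_, fun a ha => absurd ha (Finset.notMem_empty a)⟩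
  show TV (Pi.single 0 1) (c j * (s / c j)) = _
  rw [mul_div_cancel₀ _ hc]

/-- a word which is trivial where `x` or `y` is trivial or they commute -/
theorem word {j : ι} {v e : Fin 2 → ℂ} (h : om e v ≠ 0) {x y z : (MJ (n2 ι))ˣ} {s : ℂ}
    (hx : (x : MJ (n2 ι)) j = TV v (3 / (2 * om e v))) (hy : (y : MJ (n2 ι)) j = TV e (1 / om e v))
    (hz : (z : MJ (n2 ι)) j = TV (v - e) (s / 15)) :
    ((x * y * x⁻¹ * y⁻¹ * z * (y * x * y⁻¹ * x⁻¹) * z⁻¹ : (MJ (n2 ι))ˣ) : MJ (n2 ι)) j = TV (v - e) s := by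
  have h1 := tv_four h (s / 15)
  have h2 : ((x * y * x⁻¹ * y⁻¹ * z * (y * x * y⁻¹ * x⁻¹) * z⁻¹ : (MJ (n2 ι))ˣ) : MJ (n2 ι)) j =
      (TV v (3 / (2 * om e v)) * (TV e (1 / om e v) * (TV v (-(3 / (2 * om e v))) * (TV e (-(1 / om e v)) *
        TV (v - e) (s / 15) * TV e (1 / om e v)) * TV v (3 / (2 * om e v))) * TV e (-(1 / om e v))) *
        TV v (-(3 / (2 * om e v)))) * TV (v - e) (-(s / 15)) := by
    simp only [Units.val_mul, Pi.mul_apply, hx, hy, hz, inv_TV hx, inv_TV hy, inv_TV hz, mul_assoc]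
  rw [h2, h1, TV_add]
  congr 1
  ring

theorem word_one {j : ι} {x y z : (MJ (n2 ι))ˣ}
    (hc : (x : MJ (n2 ι)) j * (y : MJ (n2 ι)) j = (y : MJ (n2 ι)) j * (x : MJ (n2 ι)) j) :
    ((x * y * x⁻¹ * y⁻¹ * z * (y * x * y⁻¹ * x⁻¹) * z⁻¹ : (MJ (n2 ι))ˣ) : MJ (n2 ι)) j = 1 := by
  have h1 : ((x * y * x⁻¹ * y⁻¹ : (MJ (n2 ι))ˣ) : MJ (n2 ι)) j = 1 := by
    simp only [Units.val_mul, Pi.mul_apply]
    rw [hc, mul_assoc _ _ (((x⁻¹ : (MJ (n2 ι))ˣ) : MJ (n2 ι)) j), mul_inv_j, mul_one, mul_inv_j]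
  have h2 : ((y * x * y⁻¹ * x⁻¹ : (MJ (n2 ι))ˣ) : MJ (n2 ι)) j = 1 := by
    simp only [Units.val_mul, Pi.mul_apply]
    rw [← hc, mul_assoc _ _ (((y⁻¹ : (MJ (n2 ι))ˣ) : MJ (n2 ι)) j), mul_inv_j, mul_one, mul_inv_j]
  have h3 : ((x * y * x⁻¹ * y⁻¹ * z * (y * x * y⁻¹ * x⁻¹) * z⁻¹ : (MJ (n2 ι))ˣ) : MJ (n2 ι)) j =
      ((x * y * x⁻¹ * y⁻¹ : (MJ (n2 ι))ˣ) : MJ (n2 ι)) j * (z : MJ (n2 ι)) j *
      ((y * x * y⁻¹ * x⁻¹ : (MJ (n2 ι))ˣ) : MJ (n2 ι)) j * ((z⁻¹ : (MJ (n2 ι))ˣ) : MJ (n2 ι)) j := rfl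
  rw [h3, h1, h2, one_mul, mul_one, mul_inv_j]

theorem word_mem {x y z : (MJ (n2 ι))ˣ} (hx : x ∈ GH c) (hy : y ∈ GH c) (hz : z ∈ GH c) :
    x * y * x⁻¹ * y⁻¹ * z * (y * x * y⁻¹ * x⁻¹) * z⁻¹ ∈ GH c := by
  have hxi := inv_mem hx
  have hyi := inv_mem hy
  exact mul_mem (mul_mem (mul_mem (mul_mem (mul_mem (mul_mem hx hy) hxi) hyi) hz)
    (mul_mem (mul_mem (mul_mem hy hx) hyi) hxi)) (inv_mem hz)

/-- two factors -/
theorem VA_pair {j j' : ι} (hc : c j ≠ 0) (hc' : c j' ≠ 0) (h : c j ^ 2 ≠ c j' ^ 2) (v : Fin 2 → ℂ) :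
    v ∈ VA c j {j'} := by
  -- the conjugated transvections
  have key : ∀ (i : ι) (b s : ℂ), ((UH c 0 b * (UH c 1 1 * UH c 0 s * (UH c 1 1)⁻¹) * (UH c 0 b)⁻¹ :
      (MJ (n2 ι))ˣ) : MJ (n2 ι)) i = TV ![1 - c i ^ 2 * b, c i] (c i * s) := by
    intro i b s
    have h1 : ((UH c 1 1 * UH c 0 s * (UH c 1 1)⁻¹ : (MJ (n2 ι))ˣ) : MJ (n2 ι)) i =
        TV ![1, c i] (c i * s) := by
      have e1 : ((UH c 1 1 : (MJ (n2 ι))ˣ) : MJ (n2 ι)) i = TV (Pi.single 1 1) (c i * 1) := rfl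
      have e2 : ((UH c 0 s : (MJ (n2 ι))ˣ) : MJ (n2 ι)) i = TV (Pi.single 0 1) (c i * s) := rfl
      rw [Units.val_mul, Units.val_mul, Pi.mul_apply, Pi.mul_apply, inv_TV e1, e1, e2, TV_conj, om1]
      congr 1
      funext k
      fin_cases k <;> simp
    have e1 : ((UH c 0 b : (MJ (n2 ι))ˣ) : MJ (n2 ι)) i = TV (Pi.single 0 1) (c i * b) := rfl
    rw [Units.val_mul, Units.val_mul, Pi.mul_apply, Pi.mul_apply, inv_TV e1, h1, e1, TV_conj, om0]
    congr 1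
    funext k
    fin_cases k
    · simp
      ring
    · simp
  set b : ℂ := (c j' ^ 2)⁻¹ with hb
  have hb' : 1 - c j' ^ 2 * b = 0 := by
    rw [hb, mul_inv_cancel₀ (pow_ne_zero 2 hc'), sub_self]
  have hbj : 1 - c j ^ 2 * b ≠ 0 := by
    intro h2
    apply h
    have h3 : c j ^ 2 * b = c j' ^ 2 * b := by linear_combination hb' - h2
    exact mul_right_cancel₀ (inv_ne_zero (pow_ne_zero 2 hc')) h3
  set v : Fin 2 → ℂ := ![1 - c j ^ 2 * b, c j] with hv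
  set e : Fin 2 → ℂ := Pi.single 1 1 with he
  have hom : om e v ≠ 0 := by
    rw [he, om1, hv]
    simpa using hbj
  refine all_of_one (VA_zero j _) (VA_step hc) (v := v - e) (fun s => ?_) ?_ _
  · set x : (MJ (n2 ι))ˣ := UH c 0 b * (UH c 1 1 * UH c 0 (3 / (2 * om e v) / c j) * (UH c 1 1)⁻¹) * (UH c 0 b)⁻¹ with hx
    set y : (MJ (n2 ι))ˣ := UH c 1 (1 / om e v / c j) with hy
    have hxm : x ∈ GH c := mul_mem (mul_mem (UH_mem _ _) (mul_mem (mul_mem (UH_mem _ _) (UH_mem _ _))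
      (inv_mem (UH_mem _ _)))) (inv_mem (UH_mem _ _))
    have hym : y ∈ GH c := UH_mem _ _
    have hx1 : (x : MJ (n2 ι)) j = TV v (3 / (2 * om e v)) := by
      rw [hx, key, mul_div_cancel₀ _ hc]
    have hy1 : (y : MJ (n2 ι)) j = TV e (1 / om e v) := by
      show TV (Pi.single 1 1) (c j * (1 / om e v / c j)) = _
      rw [mul_div_cancel₀ _ hc]
    obtain ⟨z, hz, hz1, _⟩ := VA_empty hc (v - e) (s / 15)
    refine ⟨_, word_mem hxm hym hz, word hom hx1 hy1 hz1, fun a ha => ?_⟩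
    rw [Finset.mem_singleton] at ha
    subst ha
    refine word_one ?_
    have hx2 : (x : MJ (n2 ι)) a = TV e (c a ^ 2 * (c a * (3 / (2 * om e v) / c j))) := by
      rw [hx, key, hb']
      have : (![0, c a] : Fin 2 → ℂ) = c a • e := by
        funext k
        fin_cases k <;> simp [he]
      rw [this, TV_smul]
    have hy2 : (y : MJ (n2 ι)) a = TV e (c a * (1 / om e v / c j)) := rfl
    rw [hx2, hy2, TV_add, TV_add, add_comm]
  · intro h2
    have h3 := congrFun h2 0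
    rw [Pi.sub_apply, hv, he] at h3
    simp only [Matrix.cons_val_zero, Pi.zero_apply] at h3
    rw [Pi.single_eq_of_ne (by simp), sub_zero] at h3
    exact hbj h3

/-- all factors -/
theorem VA_all [DecidableEq ι] (hc : ∀ j, c j ≠ 0) (hd : ∀ j j', c j ^ 2 = c j' ^ 2 → j = j') {j : ι} (A : Finset ι) :
    j ∉ A → ∀ v, v ∈ VA c j A := by
  induction A using Finset.induction_on with
  | empty => exact fun _ => VA_empty (hc j)
  | insert a A ha ih =>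
    intro hj v
    rw [Finset.mem_insert, not_or] at hj
    have h1 := ih hj.2
    have h2 : ∀ v, v ∈ VA c j {a} := VA_pair (hc j) (hc a) fun h => hj.1 (hd _ _ h)
    set v0 : Fin 2 → ℂ := ![1, 0] with hv
    set e : Fin 2 → ℂ := Pi.single 1 1 with he
    have hom : om e v0 ≠ 0 := by
      rw [he, om1, hv]
      simp
    refine all_of_one (VA_zero j _) (VA_step (hc j)) (v := v0 - e) (fun s => ?_) ?_ _
    · obtain ⟨x, hx, hx1, hx2⟩ := h1 v0 (3 / (2 * om e v0))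
      obtain ⟨y, hy, hy1, hy2⟩ := h2 e (1 / om e v0)
      obtain ⟨z, hz, hz1, _⟩ := VA_empty (hc j) (v0 - e) (s / 15)
      refine ⟨_, word_mem hx hy hz, word hom hx1 hy1 hz1, fun b hb => word_one ?_⟩
      rcases Finset.mem_insert.1 hb with hb | hb
      · rw [hb, hy2 a (Finset.mem_singleton_self a), mul_one, one_mul]
      · rw [hx2 b hb, mul_one, one_mul]
    · intro h3
      have h4 := congrFun h3 0
      rw [Pi.sub_apply, hv, he] at h4
      simp at h4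

section final

variable [Fintype ι] [DecidableEq ι]

/-- **All tuples of symplectic matrices are in a closed monoid which contains the simultaneous transvections.** -/
theorem sp_tuple (hc : ∀ j, c j ≠ 0) (hd : ∀ j j', c j ^ 2 = c j' ^ 2 → j = j') (Mo : Submonoid (MJ (n2 ι)))
    (hM : ∀ (k : Fin 2) (s : ℂ), TH c k s ∈ Mo)
    (hP : ∀ (M : ∀ _ : ι, Matrix (Fin 2) (Fin 2) (Polynomial ℂ)) (S : Set ℂ), S.Infinite →
      (∀ s ∈ S, (fun j => (M j).map (Polynomial.eval s) : MJ (n2 ι)) ∈ Mo) → ∀ s,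
      (fun j => (M j).map (Polynomial.eval s) : MJ (n2 ι)) ∈ Mo)
    (g : MJ (n2 ι)) (hg : ∀ j, g j ∈ SpS ℂ 2) : g ∈ Mo := by
  have hGM : ∀ u ∈ GH c, (u : MJ (n2 ι)) ∈ Mo := by
    intro u hu
    have h1 : GH c ≤ Mo.units := by
      unfold GH
      rw [Subgroup.closure_le]
      rintro _ ⟨⟨k, s⟩, rfl⟩
      rw [SetLike.mem_coe, Submonoid.mem_units_iff]
      exact ⟨hM k s, hM k (-s)⟩
    exact ((Submonoid.mem_units_iff _ _).1 (h1 hu)).1
  refine tuple_mem _ _ fun j => ?_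
  set Mj : Submonoid (Matrix (Fin 2) (Fin 2) ℂ) :=
    Mo.comap (MonoidHom.mulSingle (fun j => Matrix (Fin (n2 ι j)) (Fin (n2 ι j)) ℂ) j) with hMj
  have hmem : ∀ g, g ∈ Mj ↔ (Pi.mulSingle j g : MJ (n2 ι)) ∈ Mo := fun g => Iff.rfl
  refine (hmem _).1 (sp_memM (⟨1, rfl⟩ : Even 2) ?_ (fun k => ?_) (g j) (hg j))
  · intro G S hS h s
    rw [hmem]
    have e := mulSingle_map (n := n2 ι) j G
    rw [← e]
    refine hP _ S hS (fun s hs => ?_) s
    rw [e]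
    exact (hmem _).1 (h s hs)
  · intro s
    rw [hmem]
    obtain ⟨u, hu, hu1, hu2⟩ := VA_all hc hd (Finset.univ.erase j) (Finset.notMem_erase j _) (Pi.single k 1) s
    have h1 : (Pi.mulSingle j (TV (Pi.single k 1 : Fin 2 → ℂ) s) : MJ (n2 ι)) = u := by
      funext j'
      by_cases h : j' = j
      · subst h
        rw [Pi.mulSingle_eq_same, hu1]
      · rw [Pi.mulSingle_eq_of_ne h, hu2 j' (Finset.mem_erase.2 ⟨h, Finset.mem_univ _⟩)]
    rw [h1]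
    exact hGM u hu

end final

end Pool.Agent.N156.HG
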