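import Pool.Agent.N156.HG.Fam

/-!
# Tuples of hypergeometric functions at several points: the family
-/

set_option autoImplicit false
set_option linter.unusedSectionVars false

open Filter Matrix NumberField

namespace Pool.Agent.N156.HG

open Pool.Agent.Y118.HP (jm SpS jm_det jm_transpose jm_map SpS_map)
open Pool.Agent.Y890.MV
open Pool.Agent.Y890.HE (dense_prod)
open Pool.Agent.Y890.SM
open Pool.Agent.Y890.SP (Qbar)

theorem exp_alg (μ : ℚ) : IsAlgebraic ℚ (Complex.exp (Real.pi * Complex.I * μ)) := by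
  have hd : (μ.den : ℂ) ≠ 0 := by exact_mod_cast μ.den_nz
  refine IsAlgebraic.of_pow (n := 2 * μ.den) (by have := μ.pos; omega) ?_
  have h1 : Complex.exp (Real.pi * Complex.I * μ) ^ (2 * μ.den) = 1 := by
    rw [← Complex.exp_nat_mul]
    have h2 : ((2 * μ.den : ℕ) : ℂ) * (Real.pi * Complex.I * μ) = (μ.num : ℂ) * (2 * Real.pi * Complex.I) := by
      have h3 : (μ : ℂ) * (μ.den : ℂ) = (μ.num : ℂ) := by exact_mod_cast μ.mul_den_eq_num
      push_cast
      linear_combination (2 * Real.pi * Complex.I) * h3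
    rw [h2, Complex.exp_int_mul_two_pi_mul_I]
  rw [h1]
  exact isAlgebraic_one

/-- `- 2 i sin (π μ)` is algebraic -/
theorem sin_alg (μ : ℚ) : IsAlgebraic ℚ (-(2 * Complex.I) * ((Real.sin (Real.pi * μ) : ℝ) : ℂ)) := by
  have h1 := exp_alg μ
  have h2 := exp_alg (-μ)
  have h3 : -(2 * Complex.I) * ((Real.sin (Real.pi * μ) : ℝ) : ℂ) =
      Complex.exp (Real.pi * Complex.I * ((-μ : ℚ) : ℂ)) - Complex.exp (Real.pi * Complex.I * μ) := by
    rw [Complex.ofReal_sin, Complex.sin]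
    push_cast
    have e1 : -((Real.pi : ℂ) * (μ : ℂ)) * Complex.I = Real.pi * Complex.I * -(μ : ℂ) := by ring
    have e2 : ((Real.pi : ℂ) * (μ : ℂ)) * Complex.I = Real.pi * Complex.I * (μ : ℂ) := by ring
    rw [e1, e2]
    linear_combination (Complex.exp (Real.pi * Complex.I * (μ : ℂ)) - Complex.exp (Real.pi * Complex.I * -(μ : ℂ))) *
      Complex.I_sq
  rw [h3]
  exact h2.sub h1

/-- `- 2 i sin (π μ)` -/
noncomputable def sq (μ : ℚ) : Qbar := ⟨-(2 * Complex.I) * ((Real.sin (Real.pi * μ) : ℝ) : ℂ),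
  (mem_algebraicClosure_iff).2 (sin_alg μ)⟩

theorem sq_coe (μ : ℚ) : algebraMap Qbar ℂ (sq μ) = -(2 * Complex.I) * ((Real.sin (Real.pi * μ) : ℝ) : ℂ) := rfl

section gen

variable {N : ℕ} {κ : Type}

/-- the polarization -/
noncomputable def QP (μ : κ → ℚ) (q : Fin (N + 1) × κ) : Matrix (Fin 2) (Fin 2) (MvPolynomial (Fin (N + 1)) Qbar) :=
  (MvPolynomial.C (sq (μ q.2)) * (MvPolynomial.X q.1 * (1 - MvPolynomial.X q.1))) • jm _ 2

theorem QP_eval (μ : κ → ℚ) (q : Fin (N + 1) × κ) (x : Fin (N + 1) → ℂ) :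
    (QP μ q).map (MvPolynomial.aeval x) =
      (-(2 * Complex.I) * ((Real.sin (Real.pi * μ q.2) : ℝ) : ℂ) * (x q.1 * (1 - x q.1))) • jm ℂ 2 := by
  have h1 : (jm (MvPolynomial (Fin (N + 1)) Qbar) 2).map (MvPolynomial.aeval x : _ →ₐ[Qbar] ℂ) = jm ℂ 2 :=
    jm_map (MvPolynomial.aeval x : _ →ₐ[Qbar] ℂ).toRingHom
  rw [← h1]
  ext a b
  rw [Matrix.map_apply, QP, Matrix.smul_apply, Matrix.smul_apply, Matrix.map_apply, smul_eq_mul, smul_eq_mul, map_mul,
    map_mul, map_mul, map_sub, MvPolynomial.aeval_C, MvPolynomial.aeval_X, map_one, sq_coe]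

theorem QP_alt (μ : κ → ℚ) (q : Fin (N + 1) × κ) : (QP μ q).transpose = -QP μ q := by
  unfold QP
  rw [Matrix.transpose_smul]
  have h1 : (jm (MvPolynomial (Fin (N + 1)) Qbar) 2).transpose = -jm (MvPolynomial (Fin (N + 1)) Qbar) 2 := by
    ext a b
    fin_cases a <;> fin_cases b <;> simp [jm]
  rw [h1, smul_neg]

/-- two by two matrices -/
theorem jm_two (P : Matrix (Fin 2) (Fin 2) ℂ) : P * jm ℂ 2 * P.transpose = P.det • jm ℂ 2 := by
  ext a b
  fin_cases a <;> fin_cases b <;> simp [jm, Matrix.mul_apply, Fin.sum_univ_two, Matrix.det_fin_two] <;> ring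

theorem PH_det {m : ℝ} (h0 : 0 < m) (h1 : m < 1) {z : ℂ} (hz : z ∈ DD) :
    z * (1 - z) * (PH m z).det = -((Real.pi / Real.sin (Real.pi * m) : ℝ) : ℂ) := by
  have h2 := wr_eq h0 h1 hz
  unfold wr kap at h2
  rw [PH, Matrix.det_fin_two]
  simpa using h2

variable [Fintype κ] [DecidableEq κ]

/-- the family -/
noncomputable def fam (N : ℕ) (μ : κ → ℚ) (h0 : ∀ j, 0 < μ j) (h1 : ∀ j, μ j ≤ 1 / 2) (hm : Function.Injective μ) :
    SympFam (Fin (N + 1)) (n2 (Fin (N + 1) × κ)) where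
  U := UU N
  isOpen := UU_open
  conn := UU_conn
  nonempty := UU_nonempty
  P := fun q x => PF (fun j => (μ j : ℝ)) x q
  an := PF_an (fun j => by exact_mod_cast h0 j) (fun j => by
    have := h1 j
    have h2 : μ j < 1 := by linarith
    exact_mod_cast h2)
  w := fun _ => 1
  Q := QP μ
  Q_alt := QP_alt μ
  J := fun _ => jm ℚ 2
  J_alt := fun _ => jm_transpose
  J_det := fun _ => jm_det ⟨1, rfl⟩
  riemann := by
    intro x hx q
    have e0 : (0 : ℝ) < (μ q.2 : ℝ) := by exact_mod_cast h0 q.2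
    have e1 : (μ q.2 : ℝ) < 1 := by
      have := h1 q.2
      have h2 : μ q.2 < 1 := by linarith
      exact_mod_cast h2
    have h2 : (jm ℚ 2).map (algebraMap ℚ ℂ) = jm ℂ 2 := jm_map (algebraMap ℚ ℂ)
    have h3 := PH_det e0 e1 (mem_UU.1 hx q.1)
    have h4 : ((Real.sin (Real.pi * μ q.2) : ℝ) : ℂ) ≠ 0 := by
      have h5 : 0 < Real.sin (Real.pi * μ q.2) := by
        refine Real.sin_pos_of_pos_of_lt_pi (by positivity) ?_
        nlinarith [Real.pi_pos]
      exact_mod_cast h5.ne'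
    show PH (μ q.2) (x q.1) * _ * (PH (μ q.2) (x q.1)).transpose = _
    rw [QP_eval, Matrix.mul_smul, Matrix.smul_mul, jm_two, smul_smul]
    show _ = tpi ^ 1 • (jm ℚ 2).map (algebraMap ℚ ℂ)
    rw [h2, pow_one]
    congr 1
    have h6 : -(2 * Complex.I) * ((Real.sin (Real.pi * μ q.2) : ℝ) : ℂ) * (x q.1 * (1 - x q.1)) *
        (PH (μ q.2) (x q.1)).det = -(2 * Complex.I) * ((Real.sin (Real.pi * μ q.2) : ℝ) : ℂ) *
        (x q.1 * (1 - x q.1) * (PH (μ q.2) (x q.1)).det) := by ring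
    rw [h6, h3]
    unfold tpi
    rw [Complex.ofReal_div]
    field_simp
  Γ := {γ | ∀ i, γ i ∈ SpS ℚ 2}
  pres := fun γ hγ i => hγ i
  mon := by
    intro γ hγ p hp x hx
    exact inv_all (m := fun j => (μ j : ℝ)) (fun j => by exact_mod_cast h0 j) (fun j => by
      have := h1 j
      have h2 : ((μ j : ℚ) : ℝ) ≤ ((1 / 2 : ℚ) : ℝ) := by exact_mod_cast this
      push_cast at h2
      exact h2) (fun a b h => hm (Rat.cast_injective (α := ℝ) h)) (fun i => (γ i).map (algebraMap ℚ ℂ))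
      (fun i => SpS_map (algebraMap ℚ ℂ) (hγ i)) p hp x hx
  dense := by
    intro R hR M hM
    refine dense_prod (n := n2 (Fin (N + 1) × κ)) (fun _ => ⟨1, rfl⟩) R (fun g hg => hR g hg) M fun i => ?_
    have h1 := hM i
    have h2 : (jm ℚ 2).map (algebraMap ℚ ℂ) = jm ℂ 2 := jm_map (algebraMap ℚ ℂ)
    rw [h2] at h1
    exact h1

end gen

end Pool.Agent.N156.HG
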