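import Pool.Agent.N156.HG.Wr

/-!
# The logarithmic singularity
-/

set_option autoImplicit false

open Complex Set MeasureTheory Filter Topology

namespace Pool.Agent.N156.HG

variable {m : ℝ}

/-- the coefficient `sin (π m) / π` -/
noncomputable def cc (m : ℝ) : ℝ := (kap m)⁻¹

theorem ball_D1 {ε : ℝ} (hε : ε ≤ 1) {z : ℂ} (hz : z ∈ Metric.ball (0 : ℂ) ε) : z ∈ D1 := by
  show 1 - z ∈ slitPlane
  rw [mem_slitPlane_iff]
  left
  have h1 : ‖z‖ < ε := by simpa using hz
  have h2 := Complex.abs_re_le_norm z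
  have h3 := abs_le.1 h2
  simp only [sub_re, one_re]
  linarith [h3.2]

theorem ball_slit_conn {ε : ℝ} (hε : 0 < ε) : IsPreconnected (Metric.ball (0 : ℂ) ε ∩ slitPlane) := by
  have h1 : ((ε / 2 : ℝ) : ℂ) ∈ Metric.ball (0 : ℂ) ε ∩ slitPlane := by
    refine ⟨?_, ofReal_mem_slitPlane.2 (by positivity)⟩
    rw [mem_ball_zero_iff, norm_real, Real.norm_eq_abs, abs_of_pos (by positivity)]
    linarith
  have h2 : StarConvex ℝ (((ε / 2 : ℝ) : ℂ)) (Metric.ball (0 : ℂ) ε ∩ slitPlane) := by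
    refine StarConvex.inter ((convex_ball _ _).starConvex h1.1) ?_
    intro z hz a b ha hb hab
    have hb' : b = 1 - a := by linarith
    subst hb'
    rw [mem_slitPlane_iff] at hz ⊢
    simp only [real_smul, add_re, add_im, mul_re, mul_im, ofReal_re, ofReal_im, zero_mul, sub_zero, mul_zero, add_zero,
      zero_add, sub_re, one_re, sub_im, one_im, ofReal_sub, ofReal_one]
    rcases eq_or_lt_of_le hb with h | h
    · left
      have : a = 1 := by linarith
      rw [this]
      linarith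
    · rcases hz with h1 | h1
      · left
        have := mul_pos h h1
        have h3 : 0 ≤ a * (ε / 2) := by positivity
        linarith
      · right
        simpa using ⟨h.ne', h1⟩
  exact (h2.isPathConnected h1).isConnected.isPreconnected

/-- **the logarithmic form of the second solution** -/
theorem log_form (h0 : 0 < m) (h1 : m < 1) : ∃ ε : ℝ, 0 < ε ∧ ε ≤ 1 ∧ ∃ h : ℂ → ℂ,
    DifferentiableOn ℂ h (Metric.ball 0 ε) ∧ ∀ z ∈ Metric.ball (0 : ℂ) ε, z ∈ slitPlane →
      W m (1 - z) = -(cc m : ℂ) * log z * W m z + h z := by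
  have hκ := kap_pos h0 h1
  have hκ' : (kap m : ℂ) ≠ 0 := by exact_mod_cast hκ.ne'
  have hW0 : W m 0 = (kap m : ℂ) := W_zero h0 h1
  have h0D : (0 : ℂ) ∈ D1 := by
    show 1 - 0 ∈ slitPlane
    rw [sub_zero]
    exact one_mem_slitPlane
  have hcont : ContinuousAt (W m) 0 := (W_deriv h0 h1 h0D).continuousAt
  have hev : ∀ᶠ z in 𝓝 (0 : ℂ), W m z ≠ 0 := hcont.eventually_ne (by rw [hW0]; exact hκ')
  obtain ⟨ε', hε', hball⟩ := Metric.eventually_nhds_iff_ball.1 hev
  set ε := min ε' 1 with hε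
  have hε0 : 0 < ε := lt_min hε' one_pos
  have hε1 : ε ≤ 1 := min_le_right _ _
  have hne : ∀ z ∈ Metric.ball (0 : ℂ) ε, W m z ≠ 0 := fun z hz =>
    hball z (Metric.ball_subset_ball (min_le_left _ _) hz)
  have h1z : ∀ z ∈ Metric.ball (0 : ℂ) ε, 1 - z ≠ 0 := fun z hz => slitPlane_ne_zero (ball_D1 hε1 hz)
  refine ⟨ε, hε0, hε1, ?_⟩
  set q : ℂ → ℂ := fun z => -(kap m : ℂ) / ((1 - z) * W m z ^ 2) with hq
  have hqd : DifferentiableOn ℂ q (Metric.ball 0 ε) := by
    intro z hz
    refine DifferentiableAt.differentiableWithinAt ?_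
    have hWd := (W_deriv h0 h1 (ball_D1 hε1 hz)).differentiableAt
    refine (differentiableAt_const _).div (((differentiableAt_const _).sub differentiableAt_id).mul (hWd.pow 2)) ?_
    exact mul_ne_zero (h1z z hz) (pow_ne_zero _ (hne z hz))
  have hq0 : q 0 = -(cc m : ℂ) := by
    simp only [hq, cc]
    rw [hW0]
    push_cast
    field_simp
    ring
  have hds : DifferentiableOn ℂ (dslope q 0) (Metric.ball 0 ε) :=
    (Complex.differentiableOn_dslope (Metric.ball_mem_nhds _ hε0)).2 hqd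
  obtain ⟨H, hH⟩ := hds.isExactOn_ball
  set B : Set ℂ := Metric.ball (0 : ℂ) ε ∩ slitPlane with hB
  have hBo : IsOpen B := Metric.isOpen_ball.inter isOpen_slitPlane
  have hBc : IsPreconnected B := ball_slit_conn hε0
  have hDD : ∀ z ∈ B, z ∈ DD := fun z hz => ⟨hz.2, ball_D1 hε1 hz.1⟩
  set r : ℂ → ℂ := fun z => W m (1 - z) / W m z + cc m * log z - H z with hr
  have hrd : ∀ z ∈ B, HasDerivAt r 0 z := by
    intro z hz
    have hz0 : z ≠ 0 := slitPlane_ne_zero hz.2
    have hWz := hne z hz.1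
    have a1 := W_deriv h0 h1 (DD_sub (hDD z hz))
    have a3 := W_deriv' h0 h1 (DD_sub' (hDD z hz))
    have a4 := ((a3.div a1 hWz).add ((hasDerivAt_log hz.2).const_mul (cc m : ℂ))).sub (hH z hz.1)
    refine a4.congr_deriv ?_
    have hw := wr_eq h0 h1 (hDD z hz)
    unfold wr at hw
    rw [dslope_of_ne _ hz0, slope_def_field, hq0]
    simp only [hq, sub_zero]
    have h1 := h1z z hz.1
    have h2 : -V m (1 - z) * W m z - W m (1 - z) * V m z = -(kap m : ℂ) / (z * (1 - z)) := by
      rw [eq_div_iff (mul_ne_zero hz0 h1), ← hw]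
      ring
    rw [h2]
    field_simp
    ring
  have hrc : ∀ z ∈ B, r z = r ((ε / 2 : ℝ) : ℂ) := by
    have h2B : ((ε / 2 : ℝ) : ℂ) ∈ B := by
      refine ⟨?_, ofReal_mem_slitPlane.2 (by positivity)⟩
      rw [mem_ball_zero_iff, norm_real, Real.norm_eq_abs, abs_of_pos (by positivity)]
      linarith
    intro z hz
    exact hBo.is_const_of_deriv_eq_zero hBc (fun z hz => (hrd z hz).differentiableAt.differentiableWithinAt)
      (fun z hz => (hrd z hz).deriv) hz h2B
  refine ⟨fun z => W m z * (H z + r ((ε / 2 : ℝ) : ℂ)), ?_, ?_⟩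
  · intro z hz
    refine DifferentiableAt.differentiableWithinAt ?_
    exact (W_deriv h0 h1 (ball_D1 hε1 hz)).differentiableAt.mul ((hH z hz).differentiableAt.add_const _)
  · intro z hz hz'
    have h3 := hrc z ⟨hz, hz'⟩
    have hWz := hne z hz
    simp only
    rw [← h3]
    simp only [hr]
    field_simp
    ring

end Pool.Agent.N156.HG
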