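import Pool.Agent.N156.HG.Ode

/-!
# The hypergeometric functions at real points as real integrals
-/

set_option autoImplicit false

open Complex Set MeasureTheory Filter Topology intervalIntegral

namespace Pool.Agent.N156.HG

theorem W_real {m z : ℝ} (hz : z < 1) :
    W m (z : ℂ) = ((∫ t in Ioo (0 : ℝ) 1, t ^ (-m) * (1 - t) ^ (m - 1) * (1 - z * t) ^ (-m) : ℝ) : ℂ) := by
  unfold W EI
  rw [intervalIntegral.integral_of_le zero_le_one, ← integral_Ioc_eq_integral_Ioo, ← integral_complex_ofReal]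
  refine setIntegral_congr_fun measurableSet_Ioc fun t ht => ?_
  have h1 : 0 ≤ 1 - z * t := by nlinarith [ht.1, ht.2]
  simp only [g0]
  have h2 : (1 - (z : ℂ) * (t : ℂ)) = ((1 - z * t : ℝ) : ℂ) := by push_cast; ring
  have h3 : (-(m : ℂ)) = ((-m : ℝ) : ℂ) := by push_cast; ring
  rw [h2, h3, ← ofReal_cpow h1, ← ofReal_mul]

theorem image_aux : (fun s : ℝ => -(s / (1 - s))) '' Ioo (0 : ℝ) 1 = Iio 0 := by
  ext x
  constructor
  · rintro ⟨s, hs, rfl⟩
    have : 0 < s / (1 - s) := div_pos hs.1 (by linarith [hs.2])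
    show -(s / (1 - s)) < 0
    linarith
  · intro hx
    have hx' : x < 0 := hx
    have h1 : 0 < 1 - x := by linarith
    refine ⟨-x / (1 - x), ⟨div_pos (by linarith) h1, ?_⟩, ?_⟩
    · rw [div_lt_one h1]
      linarith
    · have h2 : 1 - -x / (1 - x) = 1 / (1 - x) := by
        field_simp
        ring
      show -(-x / (1 - x) / (1 - -x / (1 - x))) = x
      rw [h2]
      field_simp

/-- the integral over the negative reals -/
theorem W_real' {m z : ℝ} (h0 : 0 < z) :
    W m (1 - (z : ℂ)) = ((∫ x in Iio (0 : ℝ), (-x) ^ (-m) * (1 - x) ^ (m - 1) * (1 - z * x) ^ (-m) : ℝ) : ℂ) := by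
  have h2 : (1 - (z : ℂ)) = ((1 - z : ℝ) : ℂ) := by push_cast; ring
  rw [h2, W_real (by linarith)]
  congr 1
  rw [← image_aux, integral_image_eq_integral_abs_deriv_smul (f := fun s : ℝ => -(s / (1 - s)))
    (f' := fun s => -(1 / (1 - s) ^ 2)) measurableSet_Ioo]
  · refine setIntegral_congr_fun measurableSet_Ioo fun s hs => ?_
    have hs0 : 0 < s := hs.1
    have hs1 : 0 < 1 - s := by linarith [hs.2]
    have hs2 : 0 < 1 - (1 - z) * s := by nlinarith
    simp only [smul_eq_mul]
    have e1 : |-(1 / (1 - s) ^ 2)| = (1 - s) ^ (-2 : ℝ) := by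
      rw [abs_neg, abs_of_pos (by positivity), Real.rpow_neg hs1.le, one_div]
      norm_num
    have e2 : (- -(s / (1 - s))) ^ (-m) = s ^ (-m) * (1 - s) ^ m := by
      rw [neg_neg, Real.div_rpow hs0.le hs1.le, Real.rpow_neg hs1.le, div_inv_eq_mul]
    have e3 : (1 - -(s / (1 - s))) ^ (m - 1) = (1 - s) ^ (1 - m) := by
      have : 1 - -(s / (1 - s)) = (1 - s)⁻¹ := by
        field_simp
        ring
      rw [this, Real.inv_rpow hs1.le, ← Real.rpow_neg hs1.le, neg_sub]
    have e4 : (1 - z * -(s / (1 - s))) ^ (-m) = (1 - (1 - z) * s) ^ (-m) * (1 - s) ^ m := by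
      have : 1 - z * -(s / (1 - s)) = (1 - (1 - z) * s) / (1 - s) := by
        field_simp
        ring
      rw [this, Real.div_rpow hs2.le hs1.le, Real.rpow_neg hs1.le, div_inv_eq_mul]
    rw [e1, e2, e3, e4]
    have e5 : (1 - s) ^ (m - 1) = (1 - s) ^ (-2 : ℝ) * (1 - s) ^ m * (1 - s) ^ (1 - m) * (1 - s) ^ m := by
      rw [← Real.rpow_add hs1, ← Real.rpow_add hs1, ← Real.rpow_add hs1]
      congr 1
      ring
    rw [e5]
    ring
  · intro s hs
    have hs1 : (1 - s) ≠ 0 := by have := hs.2; intro h; linarith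
    refine HasDerivAt.hasDerivWithinAt ?_
    have h3 := (((hasDerivAt_id s).div ((hasDerivAt_id s).const_sub 1) hs1)).neg
    have h4 : -(1 / (1 - s) ^ 2) = -((1 * (1 - s) - id s * -1) / (1 - s) ^ 2) := by
      congr 2
      simp
    rw [h4]
    exact h3
  · intro a ha b hb h
    have h1 : (1 - a) ≠ 0 := by have := ha.2; intro h; linarith
    have h3 : (1 - b) ≠ 0 := by have := hb.2; intro h; linarith
    simp only [neg_inj] at h
    rw [div_eq_div_iff h1 h3] at h
    linarith

end Pool.Agent.N156.HG
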