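import Pool.Agent.N156.HG.Inst
import Pool.Agent.N156.HG.Real

/-!
# Hypergeometric curves with real multiplication: main results
-/

set_option autoImplicit false
set_option linter.unusedSectionVars false

open Filter Matrix NumberField

namespace Pool.Agent.N156.HG

open Pool.Agent.Y118.HP (jm SpS jm_map)
open Pool.Agent.Y890.MV
open Pool.Agent.Y890.SM

variable {N : ℕ} {A : Finset ℚ}

/-- tuples of two by two matrices, for all the points `x 0, …, x N` and all `μ ∈ A` -/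
abbrev TupH (N : ℕ) (A : Finset ℚ) : Type := ∀ _ : Fin (N + 1) × A, Matrix (Fin 2) (Fin 2) ℂ

/-- the period matrices at the points `x 0, …, x N`, for all `μ ∈ A` -/
noncomputable def pmH (A : Finset ℚ) (x : Fin (N + 1) → ℂ) : TupH N A := fun q => PH ((q.2.1 : ℚ) : ℝ) (x q.1)

/-- the torsor of the periods: the `(Y, ν)`, `ν ≠ 0`, with `- 2 i sin (π μ) x i (1 - x i) det (Y (i, μ)) = ν` -/
def torH (A : Finset ℚ) (x : Fin (N + 1) → ℂ) : Set (TupH N A × ℂ) :=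
  {p | p.2 ≠ 0 ∧ ∀ q, -(2 * Complex.I) * ((Real.sin (Real.pi * (q.2.1 : ℚ)) : ℝ) : ℂ) * (x q.1 * (1 - x q.1)) *
    (p.1 q).det = p.2}

/-- the relations over `K` of degree at most `k`, with coefficients of size at most `T ^ k`, between the periods at `x`
and the constants `ξ`, respectively the powers of `2 π i`, hold on the torsor -/
def GenericH (A : Finset ℚ) (k : ℕ) (K : Type) [Field K] [NumberField K] (io : K →+* ℂ) (ξ : Fin k → ℂ) (T : ℝ)
    (x : Fin (N + 1) → ℂ) : Prop :=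
  ∀ c : (Ix (n2 (Fin (N + 1) × A)) → Fin (k + 1)) → Fin k → 𝓞 K,
    (∀ l a (φ : K →+* ℂ), ‖φ (c l a : K)‖ ≤ T ^ k) →
    (poly (fun l a => io (c l a : K)) ξ (pmH A x) = 0 →
      ∀ Y, (Y, tpi) ∈ torH A x → poly (fun l a => io (c l a : K)) ξ Y = 0) ∧
    (poly (fun l a => io (c l a : K)) (fun a => tpi ^ (a : ℕ)) (pmH A x) = 0 →
      ∀ p ∈ torH A x, poly (fun l a => io (c l a : K)) (fun a => p.2 ^ (a : ℕ)) p.1 = 0)

/-- the points over `K`, of height at most `T`, of norm at most `k` and distance at least `1 / k` from the complement of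
the domain, which are not generic -/
def ExcH (A : Finset ℚ) (k : ℕ) (K : Type) [Field K] [NumberField K] (io : K →+* ℂ) (ξ : Fin k → ℂ) (T : ℝ) :
    Set (Fin (N + 1) → K) :=
  {e | (∀ j, Y120.HtLe K T (e j)) ∧ (fun j => io (e j)) ∈ InnerM (UU N) k ∧
    ¬ GenericH A k K io ξ T (fun j => io (e j))}

/-- the family -/
noncomputable def famH (N : ℕ) (A : Finset ℚ) (hA : ∀ μ ∈ A, 0 < μ ∧ μ ≤ 1 / 2) :
    SympFam (Fin (N + 1)) (n2 (Fin (N + 1) × A)) :=
  fam N (fun μ : A => μ.1) (fun μ => (hA μ.1 μ.2).1) (fun μ => (hA μ.1 μ.2).2) Subtype.val_injective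

theorem torH_eq (hA : ∀ μ ∈ A, 0 < μ ∧ μ ≤ 1 / 2) (x : Fin (N + 1) → ℂ) : torH A x = (famH N A hA).torsor x := by
  ext p
  unfold torH SympFam.torsor
  simp only [Set.mem_ofPred_eq]
  refine and_congr_right fun _ => forall_congr' fun q => ?_
  have h1 : ((famH N A hA).Q q).map (MvPolynomial.aeval x) =
      (-(2 * Complex.I) * ((Real.sin (Real.pi * (q.2.1 : ℚ)) : ℝ) : ℂ) * (x q.1 * (1 - x q.1))) • jm ℂ 2 :=
    QP_eval (fun μ : A => μ.1) q x
  have h2 : ((famH N A hA).J q).map (algebraMap ℚ ℂ) = jm ℂ 2 := jm_map (algebraMap ℚ ℂ)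
  have h3 : (famH N A hA).w q = 1 := rfl
  have h4 := jm_two (p.1 q)
  rw [h1, h2, h3, pow_one, Matrix.mul_smul, Matrix.smul_mul, h4, smul_smul]
  constructor
  · intro h
    rw [h]
  · intro h
    have h5 := congrFun (congrFun h 1) 0
    rw [Matrix.smul_apply, Matrix.smul_apply] at h5
    simpa [jm] using h5

theorem ExcH_eq (hA : ∀ μ ∈ A, 0 < μ ∧ μ ≤ 1 / 2) (k : ℕ) (K : Type) [Field K] [NumberField K] (io : K →+* ℂ)
    (ξ : Fin k → ℂ) (T : ℝ) :
    (ExcH A k K io ξ T : Set (Fin (N + 1) → K)) = (famH N A hA).Exceptional k K io ξ T := by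
  unfold ExcH SympFam.Exceptional GenericH SympFam.Generic
  simp only [torH_eq hA]
  rfl

theorem pmH_mem (hA : ∀ μ ∈ A, 0 < μ ∧ μ ≤ 1 / 2) {x : Fin (N + 1) → ℂ} (hx : x ∈ UU N) :
    (pmH A x, tpi) ∈ torH A x := by
  rw [torH_eq hA]
  exact (famH N A hA).mem hx

/-- the relations over `ℂ(x)` -/
theorem relH (hA : ∀ μ ∈ A, 0 < μ ∧ μ ≤ 1 / 2)
    (p : MvPolynomial (Ix (n2 (Fin (N + 1) × A))) (MvPolynomial (Fin (N + 1)) ℂ))
    (hp : ∀ e ∈ UU N, evX e (fun q => pmH A e q.1 q.2.1 q.2.2) p = 0) (e : Fin (N + 1) → ℂ) (he : e ∈ UU N)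
    (Y : TupH N A) (hY : (Y, tpi) ∈ torH A e) : evX e (fun q => Y q.1 q.2.1 q.2.2) p = 0 := by
  have h1 := (famH N A hA).tor
  refine h1.inv p hp e he (fun q => Y q.1 q.2.1 q.2.2) fun i => ?_
  rw [torH_eq hA] at hY
  exact hY.2 i

theorem lt_one {μ : ℚ} (h : 0 < μ ∧ μ ≤ 1 / 2) : (0 : ℝ) < (μ : ℝ) ∧ (μ : ℝ) < 1 := by
  refine ⟨by exact_mod_cast h.1, ?_⟩
  have h2 : μ < 1 := by linarith [h.2]
  exact_mod_cast h2

/-- the second columns are the derivatives of the first -/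
theorem PH_deriv {μ : ℚ} (h : 0 < μ ∧ μ ≤ 1 / 2) {z : ℂ} (hz : z ∈ DD) (a : Fin 2) :
    HasDerivAt (fun z => PH (μ : ℝ) z a 0) (PH (μ : ℝ) z a 1) z := by
  have h1 := lt_one h
  fin_cases a
  · exact W_deriv h1.1 h1.2 (DD_sub hz)
  · exact W_deriv' h1.1 h1.2 (DD_sub' hz)

end Pool.Agent.N156.HG
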