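import Pool.Agent.N156.HG.Log
import Pool.Agent.N156.HC.Pure

/-!
# Monodromy of tuples of hypergeometric functions at the same point
-/

set_option autoImplicit false

open Complex Set Filter Topology Matrix

namespace Pool.Agent.N156.HG

open Pool.Agent.Y118.HP (jm om TV TV_conj TV_smul differentiableOn_eval)
open Pool.Agent.N156.HC (MJ IJ evJ sbJ evJ_sb)

variable {ι : Type}

/-- all sizes are two -/
abbrev n2 (ι : Type) : ι → ℕ := fun _ => 2

/-- the relations of the functions `F` on `D` -/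
def IdG (D : Set ℂ) (F : ℂ → MJ (n2 ι)) : Set (MvPolynomial (Option (IJ (n2 ι))) ℂ) :=
  {P | ∀ z ∈ D, evJ P z (F z) = 0}

/-- the tuples of matrices which preserve the relations -/
def MonG (D : Set ℂ) (F : ℂ → MJ (n2 ι)) : Submonoid (MJ (n2 ι)) where
  carrier := {g | ∀ P ∈ IdG D F, sbJ g P ∈ IdG D F}
  one_mem' := by
    intro P hP z hz
    rw [evJ_sb, one_mul]
    exact hP z hz
  mul_mem' := by
    intro g h hg hh P hP
    have h1 := hh (sbJ g P) (hg P hP)
    intro z hz
    have h2 := h1 z hz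
    rw [evJ_sb, evJ_sb] at h2
    rw [evJ_sb, mul_assoc]
    exact h2

theorem mem_MonG {D : Set ℂ} {F : ℂ → MJ (n2 ι)} {g : MJ (n2 ι)} :
    g ∈ MonG D F ↔ ∀ P ∈ IdG D F, ∀ z ∈ D, evJ P z (g * F z) = 0 := by
  constructor
  · intro h P hP z hz
    have := h P hP z hz
    rwa [evJ_sb] at this
  · intro h P hP z hz
    rw [evJ_sb]
    exact h P hP z hz

theorem poly_familyG {D : Set ℂ} {F : ℂ → MJ (n2 ι)} (M : ∀ j : ι, Matrix (Fin 2) (Fin 2) (Polynomial ℂ))
    {S : Set ℂ} (hS : S.Infinite)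
    (h : ∀ s ∈ S, (fun j => (M j).map (Polynomial.eval s) : MJ (n2 ι)) ∈ MonG D F) (s : ℂ) :
    (fun j => (M j).map (Polynomial.eval s) : MJ (n2 ι)) ∈ MonG D F := by
  rw [mem_MonG]
  intro P hP z hz
  set q : Polynomial ℂ := MvPolynomial.eval₂ Polynomial.C
    (fun o : Option (IJ (n2 ι)) => o.elim (Polynomial.C z) fun x =>
      (M x.1 * (F z x.1).map Polynomial.C) x.2.1 x.2.2) P with hq
  have hev : ∀ s, q.eval s = evJ P z ((fun j => (M j).map (Polynomial.eval s) : MJ (n2 ι)) * F z) := by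
    intro s
    have h1 := MvPolynomial.eval₂_comp_left (Polynomial.evalRingHom s) (Polynomial.C)
      (fun o : Option (IJ (n2 ι)) => o.elim (Polynomial.C z) fun x =>
        (M x.1 * (F z x.1).map Polynomial.C) x.2.1 x.2.2) P
    rw [← hq] at h1
    have h2 : (Polynomial.evalRingHom s) q = q.eval s := rfl
    rw [← h2, h1]
    unfold evJ
    rw [MvPolynomial.eval]
    congr 1
    · ext c
      simp
    · funext o
      rcases o with _ | x
      · simp
      · simp [Matrix.mul_apply]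
  have hq0 : q = 0 := by
    apply Polynomial.eq_zero_of_infinite_isRoot
    refine hS.mono fun s hs => ?_
    show q.eval s = 0
    rw [hev]
    exact mem_MonG.1 (h s hs) P hP z hz
  rw [← hev, hq0, Polynomial.eval_zero]

/-- the period matrix -/
noncomputable def PH (m : ℝ) (z : ℂ) : Matrix (Fin 2) (Fin 2) ℂ := !![W m z, V m z; W m (1 - z), -V m (1 - z)]

/-- the period matrices -/
noncomputable def PJ (m : ι → ℝ) (z : ℂ) : MJ (n2 ι) := fun j => PH (m j) z

/-- simultaneous transvections -/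
noncomputable def TH (c : ι → ℂ) (k : Fin 2) (s : ℂ) : MJ (n2 ι) := fun j => TV (Pi.single k 1) (c j * s)

theorem TV0 (x : ℂ) : TV (Pi.single (0 : Fin 2) 1) x = !![1, 0; x, 1] := by
  ext a b
  fin_cases a <;> fin_cases b <;> simp [TV, vecMulVec_apply, Pool.Agent.Y118.HP.jm, Matrix.of_apply]

theorem TV1 (x : ℂ) : TV (Pi.single (1 : Fin 2) 1) x = !![1, -x; 0, 1] := by
  ext a b
  fin_cases a <;> fin_cases b <;> simp [TV, vecMulVec_apply, Pool.Agent.Y118.HP.jm, Matrix.of_apply]

theorem PH_diff {m : ℝ} (h0 : 0 < m) (h1 : m < 1) (a b : Fin 2) : DifferentiableOn ℂ (fun z => PH m z a b) DD := by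
  intro z hz
  refine DifferentiableAt.differentiableWithinAt ?_
  fin_cases a <;> fin_cases b
  · exact (W_deriv h0 h1 (DD_sub hz)).differentiableAt
  · exact (V_deriv h0 h1 (DD_sub hz)).differentiableAt
  · exact (W_deriv' h0 h1 (DD_sub' hz)).differentiableAt
  · exact (V_deriv' h0 h1 (DD_sub' hz)).differentiableAt.neg

theorem ev_diff {m : ι → ℝ} (h0 : ∀ j, 0 < m j) (h1 : ∀ j, m j < 1) (g : MJ (n2 ι))
    (P : MvPolynomial (Option (IJ (n2 ι))) ℂ) : DifferentiableOn ℂ (fun z => evJ P z (g * PJ m z)) DD := by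
  unfold evJ
  refine differentiableOn_eval (fun (o : Option (IJ (n2 ι))) z => o.elim z fun q => (g * PJ m z) q.1 q.2.1 q.2.2) ?_ P
  rintro (_ | q)
  · exact differentiableOn_id
  · simp only [Option.elim_some, Pi.mul_apply, Matrix.mul_apply]
    refine DifferentiableOn.fun_sum fun k _ => ?_
    exact (differentiableOn_const _).mul (PH_diff (h0 q.1) (h1 q.1) k q.2.2)

end Pool.Agent.N156.HG
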