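import Pool.Agent.N156.HG.Mono

/-!
# Monodromy of tuples of hypergeometric functions at the same point: transvections
-/

set_option autoImplicit false

open Complex Set Filter Topology Matrix

namespace Pool.Agent.N156.HG

open Pool.Agent.Y118.HP (jm om TV TV_conj TV_smul differentiableOn_eval)
open Pool.Agent.N156.HC (MJ IJ evJ sbJ evJ_sb)

variable {ι : Type} {m : ι → ℝ}

theorem exists_eps [Finite ι] (h0 : ∀ j, 0 < m j) (h1 : ∀ j, m j < 1) :
    ∃ ε : ℝ, 0 < ε ∧ ε ≤ 1 ∧ ∃ h : ι → ℂ → ℂ, ∀ j, DifferentiableOn ℂ (h j) (Metric.ball 0 ε) ∧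
      ∀ z ∈ Metric.ball (0 : ℂ) ε, z ∈ slitPlane →
        W (m j) (1 - z) = -(cc (m j) : ℂ) * log z * W (m j) z + h j z := by
  choose e he he1 h hd hf using fun j => log_form (h0 j) (h1 j)
  have h2 : ∀ᶠ ε in 𝓝[>] (0 : ℝ), ∀ j, ε ≤ e j := by
    rw [eventually_all]
    intro j
    filter_upwards [Ioo_mem_nhdsGT (he j)] with ε hε
    exact hε.2.le
  obtain ⟨ε, h3, h4⟩ := (h2.and (Ioo_mem_nhdsGT (zero_lt_one' ℝ))).exists
  exact ⟨ε, h4.1, h4.2.le, h, fun j => ⟨(hd j).mono (Metric.ball_subset_ball (h3 j)), fun z hz hz' =>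
    hf j z (Metric.ball_subset_ball (h3 j) hz) hz'⟩⟩

theorem log_form' {a : ℝ} (h0 : 0 < a) (h1 : a < 1) {ε : ℝ} (hε : ε ≤ 1) {h : ℂ → ℂ}
    (hd : DifferentiableOn ℂ h (Metric.ball 0 ε))
    (hf : ∀ z ∈ Metric.ball (0 : ℂ) ε, z ∈ slitPlane → W a (1 - z) = -(cc a : ℂ) * log z * W a z + h z)
    {z : ℂ} (hz : z ∈ Metric.ball (0 : ℂ) ε) (hz' : z ∈ slitPlane) :
    -V a (1 - z) = -(cc a : ℂ) * (z⁻¹ * W a z + log z * V a z) + deriv h z := by
  have hD : z ∈ DD := ⟨hz', ball_D1 hε hz⟩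
  have d1 := W_deriv' h0 h1 (DD_sub' hD)
  have d2 := ((((hasDerivAt_log hz').const_mul (-(cc a : ℂ))).mul (W_deriv h0 h1 (DD_sub hD))).add
    ((hd z hz).differentiableAt (Metric.isOpen_ball.mem_nhds hz)).hasDerivAt)
  have h3 : (fun z => W a (1 - z)) =ᶠ[𝓝 z] (((fun y => -(cc a : ℂ) * log y) * W a) + h) := by
    filter_upwards [Metric.isOpen_ball.mem_nhds hz, isOpen_slitPlane.mem_nhds hz'] with y hy hy'
    exact hf y hy hy'
  have d3 := d2.congr_of_eventuallyEq h3
  rw [d1.unique d3]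
  ring

theorem identity_DD {m : ι → ℝ} (h0 : ∀ j, 0 < m j) (h1 : ∀ j, m j < 1) (g : MJ (n2 ι))
    (P : MvPolynomial (Option (IJ (n2 ι))) ℂ) {ε : ℝ} (hε : 0 < ε) (hε1 : ε ≤ 1)
    (h : ∀ z ∈ Metric.ball (0 : ℂ) ε, z ∈ slitPlane → evJ P z (g * PJ m z) = 0) :
    ∀ z ∈ DD, evJ P z (g * PJ m z) = 0 := by
  have h2 : ((ε / 2 : ℝ) : ℂ) ∈ Metric.ball (0 : ℂ) ε := by
    rw [mem_ball_zero_iff, norm_real, Real.norm_eq_abs, abs_of_pos (by positivity)]
    linarith
  have h3 : ((ε / 2 : ℝ) : ℂ) ∈ slitPlane := ofReal_mem_slitPlane.2 (by positivity)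
  refine ((ev_diff h0 h1 g P).analyticOnNhd isOpen_DD).eqOn_zero_of_preconnected_of_eventuallyEq_zero conn_DD
    (⟨h3, ball_D1 hε1 h2⟩ : ((ε / 2 : ℝ) : ℂ) ∈ DD) ?_
  filter_upwards [Metric.isOpen_ball.mem_nhds h2, isOpen_slitPlane.mem_nhds h3] with y hy hy'
  exact h y hy hy'

/-- the continuation around `0` -/
theorem TH0_int [Finite ι] (h0 : ∀ j, 0 < m j) (h1 : ∀ j, m j < 1) (k : ℕ) :
    TH (fun j => (cc (m j) : ℂ)) 0 (-(2 * Real.pi * I) * k) ∈ MonG DD (PJ m) := by
  rw [mem_MonG]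
  intro P hP
  obtain ⟨ε, hε, hε1, h, hh⟩ := exists_eps h0 h1
  set Yt : ℂ → MJ (n2 ι) := fun u j => !![W (m j) (exp u), V (m j) (exp u);
    -(cc (m j) : ℂ) * u * W (m j) (exp u) + h j (exp u),
    -(cc (m j) : ℂ) * (exp (-u) * W (m j) (exp u) + u * V (m j) (exp u)) + deriv (h j) (exp u)] with hYt
  set L : Set ℂ := {u | u.re < Real.log ε} with hL
  have hLo : IsOpen L := isOpen_lt continuous_re continuous_const
  have hLc : IsPreconnected L := by
    refine Convex.isPreconnected ?_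
    intro x hx y hy a b ha hb hab
    simp only [hL, Set.mem_ofPred_eq] at hx hy ⊢
    rw [add_re, Complex.smul_re, Complex.smul_re, smul_eq_mul, smul_eq_mul]
    rcases eq_or_lt_of_le ha with h | h
    · have : b = 1 := by linarith
      rw [← h, this]
      linarith
    · have : a * x.re < a * Real.log ε := mul_lt_mul_of_pos_left hx h
      have : b * y.re ≤ b * Real.log ε := mul_le_mul_of_nonneg_left hy.le hb
      have : a * Real.log ε + b * Real.log ε = Real.log ε := by rw [← add_mul, hab, one_mul]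
      linarith
  have hLb : ∀ u ∈ L, exp u ∈ Metric.ball (0 : ℂ) ε := by
    intro u hu
    rw [mem_ball_zero_iff, norm_exp]
    have := Real.exp_lt_exp.2 hu
    rwa [Real.exp_log hε] at this
  -- analyticity
  have hcomp : ∀ f : ℂ → ℂ, DifferentiableOn ℂ f (Metric.ball 0 ε) → DifferentiableOn ℂ (fun u => f (exp u)) L :=
    fun f hf => hf.comp differentiable_exp.differentiableOn hLb
  have hWd : ∀ j, DifferentiableOn ℂ (W (m j)) (Metric.ball 0 ε) := fun j z hz =>
    (W_deriv (h0 j) (h1 j) (ball_D1 hε1 hz)).differentiableAt.differentiableWithinAt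
  have hVd : ∀ j, DifferentiableOn ℂ (V (m j)) (Metric.ball 0 ε) := fun j z hz =>
    (V_deriv (h0 j) (h1 j) (ball_D1 hε1 hz)).differentiableAt.differentiableWithinAt
  have hGd : DifferentiableOn ℂ (fun u => evJ P (exp u) (Yt u)) L := by
    unfold evJ
    refine differentiableOn_eval (fun (o : Option (IJ (n2 ι))) u => o.elim (exp u) fun q => Yt u q.1 q.2.1 q.2.2) ?_ P
    rintro (_ | ⟨j, a, b⟩)
    · exact differentiable_exp.differentiableOn
    · have e1 := hcomp _ (hWd j)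
      have e2 := hcomp _ (hVd j)
      have e3 := hcomp _ (hh j).1
      have e4 := hcomp _ ((hh j).1.deriv Metric.isOpen_ball)
      fin_cases a <;> fin_cases b
      · exact e1
      · exact e2
      · exact ((differentiableOn_id.const_mul _).mul e1).add e3
      · exact ((((differentiable_exp.comp differentiable_neg).differentiableOn.mul e1).add
          (differentiableOn_id.mul e2)).const_mul _).add e4
  -- agreement
  have hagree : ∀ z ∈ Metric.ball (0 : ℂ) ε, z ∈ slitPlane → ∀ k : ℕ,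
      Yt (log z + (2 * Real.pi * I) * k) = TH (fun j => (cc (m j) : ℂ)) 0 (-(2 * Real.pi * I) * k) * PJ m z := by
    intro z hz hz' k
    have hz0 : z ≠ 0 := slitPlane_ne_zero hz'
    have hexp : exp (log z + (2 * Real.pi * I) * k) = z := by
      rw [exp_add, exp_log hz0, mul_comm (2 * (Real.pi : ℂ) * I) k, exp_nat_mul_two_pi_mul_I, mul_one]
    have hexp' : exp (-(log z + (2 * Real.pi * I) * k)) = z⁻¹ := by rw [exp_neg, hexp]
    funext j
    have f1 := (hh j).2 z hz hz'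
    have f2 := log_form' (h0 j) (h1 j) hε1 (hh j).1 (hh j).2 hz hz'
    rw [Pi.mul_apply]
    unfold TH PJ PH
    rw [TV0, f1, f2]
    simp only [hYt, hexp, hexp']
    ext a b
    fin_cases a <;> fin_cases b
    · simp [Matrix.mul_apply, Fin.sum_univ_two]
    · simp [Matrix.mul_apply, Fin.sum_univ_two]
    · simp only [Fin.mk_one, Fin.zero_eta, Matrix.mul_apply, Fin.sum_univ_two, Matrix.of_apply, Matrix.cons_val_zero,
        Matrix.cons_val_one]
      ring
    · simp only [Fin.mk_one, Matrix.mul_apply, Fin.sum_univ_two, Matrix.of_apply, Matrix.cons_val_zero,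
        Matrix.cons_val_one]
      ring
  -- vanishing on the strip
  have hzero : ∀ u ∈ L, evJ P (exp u) (Yt u) = 0 := by
    have hu0 : ((Real.log ε - 1 : ℝ) : ℂ) ∈ L := by
      show ((Real.log ε - 1 : ℝ) : ℂ).re < Real.log ε
      rw [ofReal_re]
      linarith
    refine (hGd.analyticOnNhd hLo).eqOn_zero_of_preconnected_of_eventuallyEq_zero hLc hu0 ?_
    have hs1 : ∀ᶠ u : ℂ in 𝓝 ((Real.log ε - 1 : ℝ) : ℂ), -Real.pi < u.im := by
      refine (isOpen_lt continuous_const continuous_im).mem_nhds ?_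
      show -Real.pi < ((Real.log ε - 1 : ℝ) : ℂ).im
      rw [ofReal_im]
      linarith [Real.pi_pos]
    have hs2 : ∀ᶠ u : ℂ in 𝓝 ((Real.log ε - 1 : ℝ) : ℂ), u.im < Real.pi := by
      refine (isOpen_lt continuous_im continuous_const).mem_nhds ?_
      show ((Real.log ε - 1 : ℝ) : ℂ).im < Real.pi
      rw [ofReal_im]
      exact Real.pi_pos
    filter_upwards [hLo.mem_nhds hu0, hs1, hs2] with u hu hu1 hu2
    have hlog : log (exp u) = u := log_exp hu1 hu2.le
    have hsl : exp u ∈ slitPlane := by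
      rw [mem_slitPlane_iff_arg]
      refine ⟨?_, exp_ne_zero _⟩
      rw [← log_im, hlog]
      exact hu2.ne
    have h5 := hagree (exp u) (hLb u hu) hsl 0
    rw [hlog, Nat.cast_zero, mul_zero, mul_zero, add_zero] at h5
    rw [h5]
    have h6 : TH (fun j => (cc (m j) : ℂ)) 0 0 = 1 := by
      funext j
      unfold TH
      rw [mul_zero]
      simp [TV]
    rw [h6, one_mul]
    exact hP _ ⟨hsl, ball_D1 hε1 (hLb u hu)⟩
  refine identity_DD h0 h1 _ P hε hε1 fun z hz hz' => ?_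
  rw [← hagree z hz hz' k]
  have hz0 : z ≠ 0 := slitPlane_ne_zero hz'
  have hexp : exp (log z + (2 * Real.pi * I) * k) = z := by
    rw [exp_add, exp_log hz0, mul_comm (2 * (Real.pi : ℂ) * I) k, exp_nat_mul_two_pi_mul_I, mul_one]
  have h7 := hzero (log z + (2 * Real.pi * I) * k) (by
    show (log z + (2 * Real.pi * I) * k).re < Real.log ε
    have h8 : ((2 * Real.pi * I) * k : ℂ).re = 0 := by simp
    rw [add_re, h8, add_zero, log_re]
    refine Real.log_lt_log (norm_pos_iff.2 hz0) ?_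
    simpa using hz)
  rwa [hexp] at h7

end Pool.Agent.N156.HG
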