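import Pool.Agent.N156.HG.Mono2

/-!
# Monodromy of tuples of hypergeometric functions at the same point: the two unipotent families
-/

set_option autoImplicit false

open Complex Set Filter Topology Matrix

namespace Pool.Agent.N156.HG

open Pool.Agent.Y118.HP (jm om TV TV_conj TV_smul differentiableOn_eval infinite_mul)
open Pool.Agent.N156.HC (MJ IJ evJ sbJ evJ_sb)

variable {ι : Type} {m : ι → ℝ}

theorem TH0_mem [Finite ι] (h0 : ∀ j, 0 < m j) (h1 : ∀ j, m j < 1) (s : ℂ) :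
    TH (fun j => (cc (m j) : ℂ)) 0 s ∈ MonG DD (PJ m) := by
  have hM : ∀ s : ℂ, (fun j => ((!![1, 0; Polynomial.C (cc (m j) : ℂ) * Polynomial.X, 1] :
      Matrix (Fin 2) (Fin 2) (Polynomial ℂ))).map (Polynomial.eval s) : MJ (n2 ι)) =
      TH (fun j => (cc (m j) : ℂ)) 0 s := by
    intro s
    funext j
    unfold TH
    rw [TV0]
    ext a b
    fin_cases a <;> fin_cases b <;> simp
  rw [← hM]
  refine poly_familyG _ (infinite_mul (c := -(2 * Real.pi * I)) (by simp [Real.pi_ne_zero])) ?_ s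
  rintro _ ⟨r, rfl⟩
  show (fun j => ((!![1, 0; Polynomial.C (cc (m j) : ℂ) * Polynomial.X, 1] :
      Matrix (Fin 2) (Fin 2) (Polynomial ℂ))).map (Polynomial.eval ((r : ℂ) * -(2 * Real.pi * I))) : MJ (n2 ι)) ∈ _
  rw [hM, mul_comm]
  exact TH0_int h0 h1 r

/-- the swapped tuple of matrices -/
noncomputable def swY (Y : MJ (n2 ι)) : MJ (n2 ι) := fun j => !![Y j 1 0, -Y j 1 1; Y j 0 0, -Y j 0 1]

/-- substitution `z ↦ 1 - z` and the swap of the matrices -/
noncomputable def swp (P : MvPolynomial (Option (IJ (n2 ι))) ℂ) : MvPolynomial (Option (IJ (n2 ι))) ℂ :=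
  MvPolynomial.bind₁ (fun o => o.elim (1 - MvPolynomial.X none) fun q : IJ (n2 ι) =>
    MvPolynomial.C (if q.2.2 = 0 then 1 else -1) * MvPolynomial.X (some (⟨q.1, (q.2.1.rev, q.2.2)⟩ : IJ (n2 ι)))) P

theorem evJ_swp (P : MvPolynomial (Option (IJ (n2 ι))) ℂ) (z : ℂ) (Y : MJ (n2 ι)) :
    evJ (swp P) z Y = evJ P (1 - z) (swY Y) := by
  unfold evJ swp
  rw [← MvPolynomial.coe_aeval_eq_eval, ← MvPolynomial.coe_aeval_eq_eval]
  simp only [RingHom.coe_coe]
  rw [MvPolynomial.aeval_bind₁]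
  congr 2
  funext o
  rcases o with _ | ⟨j, a, b⟩
  · simp
  · fin_cases a <;> fin_cases b <;> simp [swY, Fin.rev]

theorem swY_PJ (z : ℂ) : swY (PJ m z) = PJ m (1 - z) := by
  funext j
  unfold swY PJ PH
  simp

theorem swp_mem {P : MvPolynomial (Option (IJ (n2 ι))) ℂ} (hP : P ∈ IdG DD (PJ m)) : swp P ∈ IdG DD (PJ m) := by
  intro z hz
  rw [evJ_swp, swY_PJ]
  exact hP _ (DD_one_sub hz)

theorem TH1_mem [Finite ι] (h0 : ∀ j, 0 < m j) (h1 : ∀ j, m j < 1) (s : ℂ) :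
    TH (fun j => (cc (m j) : ℂ)) 1 s ∈ MonG DD (PJ m) := by
  rw [mem_MonG]
  intro P hP z hz
  have h2 := mem_MonG.1 (TH0_mem h0 h1 (-s)) (swp P) (swp_mem hP) (1 - z) (DD_one_sub hz)
  rw [evJ_swp, sub_sub_cancel] at h2
  have h3 : swY (TH (fun j => (cc (m j) : ℂ)) 0 (-s) * PJ m (1 - z)) = TH (fun j => (cc (m j) : ℂ)) 1 s * PJ m z := by
    funext j
    unfold swY
    simp only [Pi.mul_apply]
    unfold TH PJ PH
    rw [TV0, TV1]
    ext a b
    fin_cases a <;> fin_cases b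
    all_goals simp [Matrix.mul_apply, Fin.sum_univ_two]
    all_goals ring
  rwa [h3] at h2

end Pool.Agent.N156.HG
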