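import Pool.Agent.N156.HG.An

/-!
# The hypergeometric function `F(m, 1 - m; 1; z)` and its equation
-/

set_option autoImplicit false

open Complex Set MeasureTheory Filter Topology intervalIntegral

namespace Pool.Agent.N156.HG

/-- the weight -/
noncomputable def g0 (m t : ℝ) : ℝ := t ^ (-m) * (1 - t) ^ (m - 1)

theorem ii_congr {f g : ℝ → ℂ} (h : ∀ t ∈ Ioo (0 : ℝ) 1, f t = g t) :
    ∫ t in (0 : ℝ)..1, f t = ∫ t in (0 : ℝ)..1, g t := by
  rw [intervalIntegral.integral_of_le zero_le_one, intervalIntegral.integral_of_le zero_le_one,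
    integral_Ioc_eq_integral_Ioo, integral_Ioc_eq_integral_Ioo]
  exact setIntegral_congr_fun measurableSet_Ioo h

theorem beta_eq (m : ℝ) {t : ℝ} (ht : t ∈ Ioo (0 : ℝ) 1) :
    (t : ℂ) ^ (((1 - m : ℝ) : ℂ) - 1) * (1 - (t : ℂ)) ^ ((m : ℂ) - 1) = (g0 m t : ℂ) := by
  unfold g0
  have h1 : 0 ≤ 1 - t := by linarith [ht.2]
  push_cast
  rw [ofReal_cpow ht.1.le, ofReal_cpow h1]
  push_cast
  congr 2
  ring

theorem g0_int {m : ℝ} (h0 : 0 < m) (h1 : m < 1) : IntervalIntegrable (g0 m) volume 0 1 := by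
  have h2 := betaIntegral_convergent (u := ((1 - m : ℝ) : ℂ)) (v := (m : ℂ))
    (by rw [ofReal_re]; linarith) (by rw [ofReal_re]; exact h0)
  rw [intervalIntegrable_iff_integrableOn_Ioo_of_le zero_le_one] at h2 ⊢
  have h3 := h2.re
  refine h3.congr ?_
  filter_upwards [ae_restrict_mem measurableSet_Ioo] with t ht
  rw [beta_eq m ht]
  exact ofReal_re _

theorem g1_int {m : ℝ} (h0 : 0 < m) (h1 : m < 1) : IntervalIntegrable (fun t => t * g0 m t) volume 0 1 :=
  (g0_int h0 h1).continuousOn_mul (by fun_prop)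

theorem g2_int {m : ℝ} (h0 : 0 < m) (h1 : m < 1) : IntervalIntegrable (fun t => t * (t * g0 m t)) volume 0 1 :=
  (g1_int h0 h1).continuousOn_mul (by fun_prop)

/-- the integral `∫ t ^ (-m) (1 - t) ^ (m - 1) (1 - z t) ^ (-m) dt`, that is `π / sin (π m) * F(m, 1 - m; 1; z)` -/
noncomputable def W (m : ℝ) (z : ℂ) : ℂ := EI (g0 m) (-m) z

/-- its derivative -/
noncomputable def V (m : ℝ) (z : ℂ) : ℂ := m * EI (fun t => t * g0 m t) (-m - 1) z

/-- its second derivative -/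
noncomputable def V2 (m : ℝ) (z : ℂ) : ℂ := m * (m + 1) * EI (fun t => t * (t * g0 m t)) (-m - 2) z

theorem W_deriv {m : ℝ} (h0 : 0 < m) (h1 : m < 1) {z : ℂ} (hz : z ∈ D1) : HasDerivAt (W m) (V m z) z := by
  have h2 := EI_deriv (g0_int h0 h1) hz (-m : ℂ)
  unfold W V
  simpa using h2

theorem V_deriv {m : ℝ} (h0 : 0 < m) (h1 : m < 1) {z : ℂ} (hz : z ∈ D1) : HasDerivAt (V m) (V2 m z) z := by
  have h2 := (EI_deriv (g1_int h0 h1) hz (-m - 1 : ℂ)).const_mul (m : ℂ)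
  unfold V V2
  have h3 : (m : ℂ) * (-(-m - 1 : ℂ) * EI (fun t => t * (t * g0 m t)) (-m - 1 - 1) z) =
      m * (m + 1) * EI (fun t => t * (t * g0 m t)) (-m - 2) z := by
    have h4 : (-m - 1 - 1 : ℂ) = -m - 2 := by ring
    rw [h4]
    ring
  rw [h3] at h2
  exact h2

theorem W_zero {m : ℝ} (h0 : 0 < m) (h1 : m < 1) : W m 0 = ((Real.pi / Real.sin (Real.pi * m) : ℝ) : ℂ) := by
  have h2 : W m 0 = betaIntegral ((1 - m : ℝ) : ℂ) (m : ℂ) := by
    unfold W EI betaIntegral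
    refine ii_congr fun t ht => ?_
    rw [beta_eq m ht, zero_mul, sub_zero, one_cpow, mul_one]
  have h3 := Gamma_mul_Gamma_eq_betaIntegral (s := ((1 - m : ℝ) : ℂ)) (t := (m : ℂ))
    (by rw [ofReal_re]; linarith) (by rw [ofReal_re]; exact h0)
  have h4 : ((1 - m : ℝ) : ℂ) + (m : ℂ) = 1 := by push_cast; ring
  rw [h4, Complex.Gamma_one, one_mul] at h3
  rw [h2, ← h3, mul_comm, Complex.Gamma_ofReal, Complex.Gamma_ofReal, ← ofReal_mul, Real.Gamma_mul_Gamma_one_sub]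

theorem cpow_step {X : ℂ} (hX : X ≠ 0) (a : ℂ) : X ^ (a + 1) = X ^ a * X := by
  rw [cpow_add _ _ hX, cpow_one]

/-- the hypergeometric equation -/
theorem ode {m : ℝ} (h0 : 0 < m) (h1 : m < 1) {z : ℂ} (hz : z ∈ D1) :
    z * (1 - z) * V2 m z + (1 - 2 * z) * V m z - m * (1 - m) * W m z = 0 := by
  have i0 := int_aux (g0_int h0 h1) hz (-m : ℂ)
  have i1 := int_aux (g1_int h0 h1) hz (-m - 1 : ℂ)
  have i2 := int_aux (g2_int h0 h1) hz (-m - 2 : ℂ)
  have e1 : z * (1 - z) * V2 m z + (1 - 2 * z) * V m z - m * (1 - m) * W m z =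
      ∫ t in (0 : ℝ)..1, (z * (1 - z) * (m * (m + 1)) * (((t * (t * g0 m t) : ℝ) : ℂ) * (1 - z * t) ^ (-m - 2 : ℂ)) +
        (1 - 2 * z) * m * (((t * g0 m t : ℝ) : ℂ) * (1 - z * t) ^ (-m - 1 : ℂ)) -
        m * (1 - m) * ((g0 m t : ℂ) * (1 - z * t) ^ (-m : ℂ))) := by
    rw [intervalIntegral.integral_sub ((i2.const_mul _).add (i1.const_mul _)) (i0.const_mul _),
      intervalIntegral.integral_add (i2.const_mul _) (i1.const_mul _), intervalIntegral.integral_const_mul,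
      intervalIntegral.integral_const_mul, intervalIntegral.integral_const_mul]
    unfold V2 V W EI
    ring
  set G : ℝ → ℂ := fun t => -m * ((t ^ (1 - m) * (1 - t) ^ m : ℝ) : ℂ) * (1 - z * t) ^ (-m - 1 : ℂ) with hG
  have hcont : ContinuousOn G (Icc 0 1) := by
    have c1 : Continuous fun t : ℝ => t ^ (1 - m) * (1 - t) ^ m := by
      refine Continuous.mul ?_ ?_
      · exact Real.continuous_rpow_const (by linarith)
      · exact (Real.continuous_rpow_const h0.le).comp (by fun_prop)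
    exact (continuousOn_const.mul (continuous_ofReal.comp c1).continuousOn).mul (cont_t hz _)
  have hderiv : ∀ t ∈ Ioo (0 : ℝ) 1, HasDerivAt G
      (z * (1 - z) * (m * (m + 1)) * (((t * (t * g0 m t) : ℝ) : ℂ) * (1 - z * t) ^ (-m - 2 : ℂ)) +
        (1 - 2 * z) * m * (((t * g0 m t : ℝ) : ℂ) * (1 - z * t) ^ (-m - 1 : ℂ)) -
        m * (1 - m) * ((g0 m t : ℂ) * (1 - z * t) ^ (-m : ℂ))) t := by
    intro t ht
    have h1t : 0 < 1 - t := by linarith [ht.2]
    have hX := mem_seg hz ht.1.le ht.2.le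
    have hX0 : (1 - z * t : ℂ) ≠ 0 := slitPlane_ne_zero hX
    have d1 : HasDerivAt (fun t : ℝ => t ^ (1 - m)) ((1 - m) * t ^ (1 - m - 1)) t :=
      Real.hasDerivAt_rpow_const (Or.inl ht.1.ne')
    have d2 : HasDerivAt (fun t : ℝ => (1 - t) ^ m) (-1 * m * (1 - t) ^ (m - 1)) t := by
      have := ((hasDerivAt_id t).const_sub 1).rpow_const (p := m) (Or.inl h1t.ne')
      simpa using this
    have d3 := (d1.mul d2).ofReal_comp
    have d4 : HasDerivAt (fun w : ℂ => (1 - z * w)) (-z) (t : ℂ) := by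
      have := ((hasDerivAt_id (t : ℂ)).const_mul z).const_sub 1
      simpa using this
    have d5 : HasDerivAt (fun t : ℝ => (1 - z * (t : ℂ)) ^ (-m - 1 : ℂ))
        ((-m - 1 : ℂ) * (1 - z * t) ^ (-m - 1 - 1 : ℂ) * (-z)) t := (d4.cpow_const hX).comp_ofReal
    have d6 := (d3.const_mul (-m : ℂ)).mul d5
    refine d6.congr_deriv ?_
    simp only [Pi.mul_apply]
    have r1 : t ^ (1 - m) = t * t ^ (-m) := by
      rw [show (1 - m) = 1 + (-m) by ring, Real.rpow_add ht.1, Real.rpow_one]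
    have r2 : (1 - t) ^ m = (1 - t) * (1 - t) ^ (m - 1) := by
      nth_rewrite 1 [show m = 1 + (m - 1) by ring]
      rw [Real.rpow_add h1t, Real.rpow_one]
    have r3 : t ^ (1 - m - 1) = t ^ (-m) := by congr 1; ring
    have q1 : (1 - z * t : ℂ) ^ (-m - 1 : ℂ) = (1 - z * t) ^ (-m - 2 : ℂ) * (1 - z * t) := by
      rw [← cpow_step hX0]; congr 1; ring
    have q2 : (1 - z * t : ℂ) ^ (-m : ℂ) = (1 - z * t) ^ (-m - 2 : ℂ) * (1 - z * t) * (1 - z * t) := by
      rw [← q1, ← cpow_step hX0]; congr 1; ring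
    have q3 : (1 - z * t : ℂ) ^ (-m - 1 - 1 : ℂ) = (1 - z * t) ^ (-m - 2 : ℂ) := by congr 1; ring
    rw [q3, q1, q2, r1, r2, r3]
    unfold g0
    generalize t ^ (-m) = a
    generalize (1 - t) ^ (m - 1) = b
    generalize (1 - z * t : ℂ) ^ (-m - 2 : ℂ) = c
    push_cast
    ring
  have e2 := intervalIntegral.integral_eq_sub_of_hasDerivAt_of_le zero_le_one hcont hderiv
    (((i2.const_mul _).add (i1.const_mul _)).sub (i0.const_mul _))
  rw [e1]
  refine e2.trans ?_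
  simp only [hG]
  rw [Real.zero_rpow (by linarith : (1 - m) ≠ 0), sub_self, Real.zero_rpow h0.ne']
  simp

end Pool.Agent.N156.HG
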