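import Pool.Agent.N156.HG.Ode

/-!
# The Wronskian of `F(m, 1 - m; 1; z)` and `F(m, 1 - m; 1; 1 - z)`
-/

set_option autoImplicit false

open Complex Set MeasureTheory Filter Topology intervalIntegral

namespace Pool.Agent.N156.HG

/-- the plane without `(-∞, 0]` and `[1, ∞)` -/
def DD : Set ℂ := {z | z ∈ slitPlane ∧ 1 - z ∈ slitPlane}

theorem DD_one_sub {z : ℂ} (hz : z ∈ DD) : 1 - z ∈ DD := ⟨hz.2, by rw [sub_sub_cancel]; exact hz.1⟩

theorem DD_sub {z : ℂ} (hz : z ∈ DD) : z ∈ D1 := hz.2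

theorem DD_sub' {z : ℂ} (hz : z ∈ DD) : 1 - z ∈ D1 := (DD_one_sub hz).2

theorem isOpen_DD : IsOpen DD :=
  isOpen_slitPlane.inter (isOpen_slitPlane.preimage (by fun_prop : Continuous fun z : ℂ => 1 - z))

theorem real_mem_DD {x : ℝ} (h0 : 0 < x) (h1 : x < 1) : (x : ℂ) ∈ DD := by
  refine ⟨ofReal_mem_slitPlane.2 h0, ?_⟩
  rw [← ofReal_one, ← ofReal_sub, ofReal_mem_slitPlane]
  linarith

theorem star_DD : StarConvex ℝ ((1 / 2 : ℝ) : ℂ) DD := by
  intro z hz a b ha hb hab
  have hb' : b = 1 - a := by linarith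
  subst hb'
  have key : ∀ w : ℂ, w ∈ slitPlane → a • (((1 / 2 : ℝ) : ℂ)) + (1 - a) • w ∈ slitPlane := by
    intro w hw
    rw [mem_slitPlane_iff] at hw ⊢
    simp only [real_smul, add_re, add_im, mul_re, mul_im, ofReal_re, ofReal_im, zero_mul, sub_zero, mul_zero, add_zero,
      zero_add, sub_re, one_re, sub_im, one_im, ofReal_sub, ofReal_one]
    rcases eq_or_lt_of_le hb with h | h
    · left
      have : a = 1 := by linarith
      rw [this]
      norm_num
    · rcases hw with h1 | h1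
      · left
        nlinarith [mul_pos h h1]
      · right
        simpa using ⟨h.ne', h1⟩
  refine ⟨key z hz.1, ?_⟩
  have h2 := key (1 - z) hz.2
  have h3 : a • (((1 / 2 : ℝ) : ℂ)) + (1 - a) • (1 - z) = 1 - (a • (((1 / 2 : ℝ) : ℂ)) + (1 - a) • z) := by
    simp only [real_smul]
    push_cast
    ring
  rwa [h3] at h2

theorem conn_DD : IsPreconnected DD :=
  (star_DD.isPathConnected (real_mem_DD (by norm_num) (by norm_num))).isConnected.isPreconnected

/-- the Wronskian, times `z (1 - z)` -/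
noncomputable def wr (m : ℝ) (z : ℂ) : ℂ := z * (1 - z) * (W m z * (-V m (1 - z)) - V m z * W m (1 - z))

variable {m : ℝ}

theorem W_deriv' (h0 : 0 < m) (h1 : m < 1) {z : ℂ} (hz : 1 - z ∈ D1) :
    HasDerivAt (fun z => W m (1 - z)) (-V m (1 - z)) z := by
  have h2 : HasDerivAt (fun z : ℂ => 1 - z) (-1) z := by
    simpa using (hasDerivAt_id z).const_sub 1
  have h3 := HasDerivAt.comp z (W_deriv h0 h1 hz) h2
  rw [mul_neg_one] at h3
  exact h3

theorem V_deriv' (h0 : 0 < m) (h1 : m < 1) {z : ℂ} (hz : 1 - z ∈ D1) :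
    HasDerivAt (fun z => V m (1 - z)) (-V2 m (1 - z)) z := by
  have h2 : HasDerivAt (fun z : ℂ => 1 - z) (-1) z := by
    simpa using (hasDerivAt_id z).const_sub 1
  have h3 := HasDerivAt.comp z (V_deriv h0 h1 hz) h2
  rw [mul_neg_one] at h3
  exact h3

theorem wr_deriv (h0 : 0 < m) (h1 : m < 1) {z : ℂ} (hz : z ∈ DD) : HasDerivAt (wr m) 0 z := by
  have a1 := W_deriv h0 h1 (DD_sub hz)
  have a2 := V_deriv h0 h1 (DD_sub hz)
  have a3 := W_deriv' h0 h1 (DD_sub' hz)
  have a4 := V_deriv' h0 h1 (DD_sub' hz)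
  have o1 := ode h0 h1 (DD_sub hz)
  have o2 := ode h0 h1 (DD_sub' hz)
  have a5 : HasDerivAt (fun z : ℂ => z * (1 - z)) (1 - 2 * z) z := by
    have := (hasDerivAt_id z).mul ((hasDerivAt_id z).const_sub 1)
    refine this.congr_deriv ?_
    simp only [id]
    ring
  have a6 := a5.mul ((a1.mul a4.neg).sub (a2.mul a3))
  refine a6.congr_deriv ?_
  simp only [Pi.mul_apply, Pi.sub_apply, Pi.neg_apply]
  linear_combination (-W m (1 - z)) * o1 + W m z * o2

theorem wr_const (h0 : 0 < m) (h1 : m < 1) {z w : ℂ} (hz : z ∈ DD) (hw : w ∈ DD) : wr m z = wr m w :=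
  isOpen_DD.is_const_of_deriv_eq_zero conn_DD
    (fun _ hz => (wr_deriv h0 h1 hz).differentiableAt.differentiableWithinAt)
    (fun _ hz => (wr_deriv h0 h1 hz).deriv) hz hw

/-- `x V(1 - x)` as an integral -/
theorem xV (h0 : 0 < m) (h1 : m < 1) {x : ℝ} (hx0 : 0 < x) (hx1 : x < 1) :
    (x : ℂ) * V m (1 - x) = (((1 - m) * ∫ t in (0 : ℝ)..1, t ^ (-m) * ((1 - t) / (1 - (1 - x) * t)) ^ m : ℝ) : ℂ) := by
  have hY : ∀ t ∈ Icc (0 : ℝ) 1, 0 < 1 - (1 - x) * t := by
    intro t ht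
    nlinarith [mul_nonneg (sub_nonneg.2 hx1.le) (sub_nonneg.2 ht.2), ht.1, ht.2]
  have hcY : ∀ a : ℝ, ContinuousOn (fun t : ℝ => (1 - (1 - x) * t) ^ a) (Icc 0 1) := fun a =>
    ContinuousOn.rpow_const (by fun_prop) fun t ht => Or.inl (hY t ht).ne'
  have hcQ : ContinuousOn (fun t : ℝ => ((1 - t) / (1 - (1 - x) * t)) ^ m) (Icc 0 1) :=
    ContinuousOn.rpow_const (ContinuousOn.div (by fun_prop) (by fun_prop) fun t ht => (hY t ht).ne')
      fun t ht => Or.inr h0.le
  -- the real integral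
  have e1 : (x : ℂ) * V m (1 - x) =
      ((∫ t in (0 : ℝ)..1, x * m * (t * g0 m t * (1 - (1 - x) * t) ^ (-m - 1)) : ℝ) : ℂ) := by
    unfold V EI
    rw [← mul_assoc, ← intervalIntegral.integral_const_mul, ← intervalIntegral.integral_ofReal]
    refine intervalIntegral.integral_congr fun t ht => ?_
    rw [uIcc_of_le zero_le_one] at ht
    simp only
    push_cast
    rw [ofReal_cpow (hY t ht).le]
    push_cast
    ring
  rw [e1]
  congr 1
  have iA : IntervalIntegrable (fun t : ℝ => (1 - m) * (t ^ (-m) * ((1 - t) / (1 - (1 - x) * t)) ^ m)) volume 0 1 := by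
    refine IntervalIntegrable.const_mul ?_ _
    refine IntervalIntegrable.mul_continuousOn ?_ ?_
    · exact intervalIntegral.intervalIntegrable_rpow' (by linarith)
    · rw [uIcc_of_le zero_le_one]
      exact hcQ
  have iB : IntervalIntegrable (fun t : ℝ => x * m * (t * g0 m t * (1 - (1 - x) * t) ^ (-m - 1))) volume 0 1 := by
    refine IntervalIntegrable.const_mul ?_ _
    refine (g1_int h0 h1).mul_continuousOn ?_
    rw [uIcc_of_le zero_le_one]
    exact hcY _
  set G : ℝ → ℝ := fun t => t ^ (1 - m) * ((1 - t) / (1 - (1 - x) * t)) ^ m with hG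
  have hcont : ContinuousOn G (Icc 0 1) :=
    ((Real.continuous_rpow_const (by linarith : 0 ≤ 1 - m)).continuousOn).mul hcQ
  have hderiv : ∀ t ∈ Ioo (0 : ℝ) 1, HasDerivAt G ((1 - m) * (t ^ (-m) * ((1 - t) / (1 - (1 - x) * t)) ^ m) -
      x * m * (t * g0 m t * (1 - (1 - x) * t) ^ (-m - 1))) t := by
    intro t ht
    have h1t : 0 < 1 - t := by linarith [ht.2]
    have hYt := hY t ⟨ht.1.le, ht.2.le⟩
    have d1 : HasDerivAt (fun t : ℝ => t ^ (1 - m)) ((1 - m) * t ^ (1 - m - 1)) t :=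
      Real.hasDerivAt_rpow_const (Or.inl ht.1.ne')
    have d2 : HasDerivAt (fun t : ℝ => (1 - t) / (1 - (1 - x) * t))
        ((-1 * (1 - (1 - x) * t) - (1 - t) * (-(1 - x))) / (1 - (1 - x) * t) ^ 2) t := by
      refine HasDerivAt.div ?_ ?_ hYt.ne'
      · simpa using (hasDerivAt_id t).const_sub 1
      · simpa using ((hasDerivAt_id t).const_mul (1 - x)).const_sub 1
    have d3 := d2.rpow_const (p := m) (Or.inl (div_pos h1t hYt).ne')
    have d4 := d1.mul d3
    refine d4.congr_deriv ?_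
    have r1 : t ^ (1 - m) = t * t ^ (-m) := by
      rw [show (1 - m) = 1 + (-m) by ring, Real.rpow_add ht.1, Real.rpow_one]
    have r3 : t ^ (1 - m - 1) = t ^ (-m) := by congr 1; ring
    have r4 : ((1 - t) / (1 - (1 - x) * t)) ^ (m - 1) =
        (1 - t) ^ (m - 1) * ((1 - (1 - x) * t) ^ (-m - 1) * (1 - (1 - x) * t) ^ 2) := by
      rw [Real.div_rpow h1t.le hYt.le, div_eq_mul_inv, ← Real.rpow_neg hYt.le, ← Real.rpow_natCast, ← Real.rpow_add hYt]
      congr 2
      push_cast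
      ring
    have hnum : (-1 * (1 - (1 - x) * t) - (1 - t) * (-(1 - x))) = -x := by ring
    rw [hnum, r4, r3, r1]
    unfold g0
    have hY2 : (1 - (1 - x) * t) ^ 2 ≠ 0 := pow_ne_zero _ hYt.ne'
    generalize ((1 - t) / (1 - (1 - x) * t)) ^ m = q
    generalize (1 - (1 - x) * t) ^ (-m - 1) = q'
    generalize (1 - (1 - x) * t) ^ 2 = y at hY2 ⊢
    field_simp
    ring
  have e2 := intervalIntegral.integral_eq_sub_of_hasDerivAt_of_le zero_le_one hcont hderiv (iA.sub iB)
  have e3 : G 1 - G 0 = 0 := by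
    simp only [hG]
    rw [Real.zero_rpow (by linarith : (1 - m) ≠ 0), sub_self, zero_div, Real.zero_rpow h0.ne']
    simp
  rw [e3, intervalIntegral.integral_sub iA iB, intervalIntegral.integral_const_mul] at e2
  linarith

theorem xV_tendsto (h0 : 0 < m) (h1 : m < 1) :
    Tendsto (fun x : ℝ => (x : ℂ) * V m (1 - x)) (𝓝[>] 0) (𝓝 1) := by
  have e1 : Tendsto (fun x : ℝ => (1 - m) * ∫ t in (0 : ℝ)..1, t ^ (-m) * ((1 - t) / (1 - (1 - x) * t)) ^ m)
      (𝓝[>] 0) (𝓝 ((1 - m) * ∫ t in (0 : ℝ)..1, t ^ (-m) * 1)) := by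
    refine Tendsto.const_mul _ ?_
    refine intervalIntegral.tendsto_integral_filter_of_dominated_convergence (fun t => |t ^ (-m)|) ?_ ?_ ?_ ?_
    · filter_upwards [Ioo_mem_nhdsGT (zero_lt_one' ℝ)] with x hx
      have hY : ∀ t ∈ Icc (0 : ℝ) 1, 0 < 1 - (1 - x) * t := by
        intro t ht
        nlinarith [mul_nonneg (sub_nonneg.2 hx.2.le) (sub_nonneg.2 ht.2), ht.1, ht.2, hx.1]
      have i1 : IntervalIntegrable (fun t : ℝ => t ^ (-m) * ((1 - t) / (1 - (1 - x) * t)) ^ m) volume 0 1 := by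
        refine IntervalIntegrable.mul_continuousOn ?_ ?_
        · exact intervalIntegral.intervalIntegrable_rpow' (by linarith)
        · rw [uIcc_of_le zero_le_one]
          exact ContinuousOn.rpow_const (ContinuousOn.div (by fun_prop) (by fun_prop) fun t ht => (hY t ht).ne')
            fun t ht => Or.inr h0.le
      exact i1.aestronglyMeasurable_restrict_uIoc
    · filter_upwards [Ioo_mem_nhdsGT (zero_lt_one' ℝ)] with x hx
      refine Eventually.of_forall fun t ht => ?_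
      rw [uIoc_of_le zero_le_one] at ht
      have hY : 0 < 1 - (1 - x) * t := by
        nlinarith [mul_nonneg (sub_nonneg.2 hx.2.le) (sub_nonneg.2 ht.2), ht.1, ht.2, hx.1]
      rw [norm_mul, Real.norm_eq_abs, Real.norm_eq_abs]
      refine mul_le_of_le_one_right (abs_nonneg _) ?_
      have hq0 : 0 ≤ (1 - t) / (1 - (1 - x) * t) := div_nonneg (by linarith [ht.2]) hY.le
      rw [abs_of_nonneg (Real.rpow_nonneg hq0 _)]
      refine Real.rpow_le_one hq0 ?_ h0.le
      rw [div_le_one hY]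
      nlinarith [mul_pos hx.1 ht.1]
    · exact (intervalIntegral.intervalIntegrable_rpow' (by linarith)).abs
    · have hne : ∀ᵐ t : ℝ, t ≠ 1 := by
        rw [ae_iff]
        simp
      filter_upwards [hne] with t ht1 ht
      rw [uIoc_of_le zero_le_one] at ht
      have h1t : 0 < 1 - t := by
        have := lt_of_le_of_ne ht.2 ht1
        linarith
      refine Tendsto.const_mul _ ?_
      have c1 : ContinuousAt (fun x : ℝ => ((1 - t) / (1 - (1 - x) * t)) ^ m) 0 := by
        refine ContinuousAt.rpow_const (ContinuousAt.div (by fun_prop) (by fun_prop) ?_) (Or.inr h0.le)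
        simp only [sub_zero, one_mul]
        exact h1t.ne'
      have c2 := c1.tendsto
      simp only [sub_zero, one_mul, div_self h1t.ne', Real.one_rpow] at c2
      exact c2.mono_left nhdsWithin_le_nhds
  have e2 : (1 - m) * ∫ t in (0 : ℝ)..1, t ^ (-m) * 1 = 1 := by
    simp only [mul_one]
    rw [integral_rpow (Or.inl (by linarith)), Real.one_rpow, Real.zero_rpow (by linarith), sub_zero]
    have : -m + 1 ≠ 0 := by linarith
    field_simp
    ring
  rw [e2] at e1
  have e3 : Tendsto (fun x : ℝ => (((1 - m) * ∫ t in (0 : ℝ)..1, t ^ (-m) * ((1 - t) / (1 - (1 - x) * t)) ^ m : ℝ) : ℂ))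
      (𝓝[>] 0) (𝓝 ((1 : ℝ) : ℂ)) := (continuous_ofReal.tendsto _).comp e1
  rw [ofReal_one] at e3
  refine e3.congr' ?_
  filter_upwards [Ioo_mem_nhdsGT (zero_lt_one' ℝ)] with x hx
  exact (xV h0 h1 hx.1 hx.2).symm

theorem xW_tendsto (h0 : 0 < m) (h1 : m < 1) :
    Tendsto (fun x : ℝ => (x : ℂ) * W m (1 - x)) (𝓝[>] 0) (𝓝 0) := by
  set K := ∫ t in (0 : ℝ)..1, |g0 m t| with hK
  have hb : Tendsto (fun x : ℝ => x ^ (1 - m) * K) (𝓝[>] 0) (𝓝 0) := by
    have c1 : ContinuousAt (fun x : ℝ => x ^ (1 - m) * K) 0 :=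
      (Real.continuous_rpow_const (by linarith : 0 ≤ 1 - m)).continuousAt.mul continuousAt_const
    have c2 := c1.tendsto
    rw [Real.zero_rpow (by linarith), zero_mul] at c2
    exact c2.mono_left nhdsWithin_le_nhds
  refine squeeze_zero_norm' ?_ hb
  filter_upwards [Ioo_mem_nhdsGT (zero_lt_one' ℝ)] with x hx
  have hY : ∀ t ∈ Icc (0 : ℝ) 1, x ≤ 1 - (1 - x) * t := by
    intro t ht
    nlinarith [mul_nonneg (sub_nonneg.2 hx.2.le) (sub_nonneg.2 ht.2)]
  have h2 : ‖W m (1 - x)‖ ≤ x ^ (-m) * K := by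
    unfold W EI
    rw [hK, ← intervalIntegral.integral_const_mul]
    refine intervalIntegral.norm_integral_le_of_norm_le zero_le_one ?_ ((g0_int h0 h1).abs.const_mul _)
    refine Eventually.of_forall fun t ht => ?_
    have ht' : t ∈ Icc (0 : ℝ) 1 := ⟨ht.1.le, ht.2⟩
    have h3 := hY t ht'
    have h4 : (1 - (1 - (x : ℂ)) * t) = ((1 - (1 - x) * t : ℝ) : ℂ) := by push_cast; ring
    rw [norm_mul, norm_real, Real.norm_eq_abs, h4, norm_cpow_eq_rpow_re_of_pos (lt_of_lt_of_le hx.1 h3), neg_re,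
      ofReal_re, mul_comm]
    refine mul_le_mul_of_nonneg_right ?_ (abs_nonneg _)
    rw [Real.rpow_neg (hx.1.le.trans h3), Real.rpow_neg hx.1.le]
    exact inv_anti₀ (Real.rpow_pos_of_pos hx.1 _) (Real.rpow_le_rpow hx.1.le h3 h0.le)
  rw [norm_mul, norm_real, Real.norm_eq_abs, abs_of_pos hx.1]
  calc x * ‖W m (1 - x)‖ ≤ x * (x ^ (-m) * K) := mul_le_mul_of_nonneg_left h2 hx.1.le
    _ = x ^ (1 - m) * K := by
      rw [show (1 - m) = 1 + (-m) by ring, Real.rpow_add hx.1, Real.rpow_one]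
      ring

/-- the constant `π / sin (π m)` -/
noncomputable def kap (m : ℝ) : ℝ := Real.pi / Real.sin (Real.pi * m)

theorem kap_pos (h0 : 0 < m) (h1 : m < 1) : 0 < kap m := by
  refine div_pos Real.pi_pos (Real.sin_pos_of_pos_of_lt_pi (by positivity) ?_)
  nlinarith [Real.pi_pos]

/-- **the value of the Wronskian** -/
theorem wr_eq (h0 : 0 < m) (h1 : m < 1) {z : ℂ} (hz : z ∈ DD) : wr m z = -(kap m : ℂ) := by
  have hW : Tendsto (fun x : ℝ => W m (x : ℂ)) (𝓝[>] 0) (𝓝 (kap m : ℂ)) := by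
    have c1 : ContinuousAt (W m) 0 := (W_deriv h0 h1 (show (0 : ℂ) ∈ D1 by
      show 1 - 0 ∈ slitPlane
      rw [sub_zero]
      exact one_mem_slitPlane)).continuousAt
    have c2 : ContinuousAt (fun x : ℝ => W m (x : ℂ)) 0 :=
      ContinuousAt.comp (g := W m) (f := fun x : ℝ => (x : ℂ)) (by simpa using c1) continuous_ofReal.continuousAt
    have c3 := c2.tendsto
    rw [ofReal_zero, W_zero h0 h1] at c3
    exact c3.mono_left nhdsWithin_le_nhds
  have hV : Tendsto (fun x : ℝ => V m (x : ℂ)) (𝓝[>] 0) (𝓝 (V m 0)) := by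
    have c1 : ContinuousAt (V m) 0 := (V_deriv h0 h1 (show (0 : ℂ) ∈ D1 by
      show 1 - 0 ∈ slitPlane
      rw [sub_zero]
      exact one_mem_slitPlane)).continuousAt
    have c2 : ContinuousAt (fun x : ℝ => V m (x : ℂ)) 0 :=
      ContinuousAt.comp (g := V m) (f := fun x : ℝ => (x : ℂ)) (by simpa using c1) continuous_ofReal.continuousAt
    have c3 := c2.tendsto
    rw [ofReal_zero] at c3
    exact c3.mono_left nhdsWithin_le_nhds
  have h1x : Tendsto (fun x : ℝ => -(1 - (x : ℂ))) (𝓝[>] 0) (𝓝 (-(1 - 0))) := by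
    have c1 : Continuous fun x : ℝ => -(1 - (x : ℂ)) := by fun_prop
    have c2 := c1.tendsto 0
    rw [ofReal_zero] at c2
    exact c2.mono_left nhdsWithin_le_nhds
  have hlim := h1x.mul ((hW.mul (xV_tendsto h0 h1)).add (hV.mul (xW_tendsto h0 h1)))
  have hconst : Tendsto (fun x : ℝ => wr m (x : ℂ)) (𝓝[>] 0) (𝓝 (wr m z)) := by
    refine tendsto_const_nhds.congr' ?_
    filter_upwards [Ioo_mem_nhdsGT (zero_lt_one' ℝ)] with x hx
    exact wr_const h0 h1 hz (real_mem_DD hx.1 hx.2)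
  have h5 := tendsto_nhds_unique (hlim.congr fun x => ?_) hconst
  · rw [← h5]
    ring
  · unfold wr
    ring

end Pool.Agent.N156.HG
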